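import Pool.Agent.H500.TH.Main
import Pool.Agent.H500.R2.Gal

set_option autoImplicit false
set_option linter.unusedSectionVars false

/-!
# Solvable residual images: the local data
-/

namespace Pool.Agent.H500.TH

open NumberField IsDedekindDomain Filter Topology Polynomial
open Pool.Agent.W401.Cheb (GK IsFrob IsInert dens)
open Pool.Agent.H500.HC
open Pool.Agent.H500.MW (PosUD dens_exists posUD_of_not)
open Pool.Agent.H500.R2 (UnrOut SpC fin_range frob_at)
open Pool.Agent.H500.SV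

section

variable {K E : Type} [Field K] [NumberField K] [Field E] [NumberField E]

/-- a residual representation with solvable image and Frobenius polynomials `P v` -/
def SolRes (N n : ℕ) (P : HeightOneSpectrum (𝓞 K) → (𝓞 E)[X]) (lam : HeightOneSpectrum (𝓞 E)) :
    Prop :=
  ∃ (k : Type) (_ : Field k) (φ : 𝓞 E →+* k) (ρ : GK K →* GL (Fin n) k),
    RingHom.ker φ = lam.asIdeal ∧ IsOpen (ρ.ker : Set (GK K)) ∧
    UnrOut (N * Ideal.absNorm lam.asIdeal) ρ.ker ∧
    (∀ v : HeightOneSpectrum (𝓞 K), (N : 𝓞 K) ∉ v.asIdeal →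
      ((Ideal.absNorm lam.asIdeal : ℕ) : 𝓞 K) ∉ v.asIdeal → ∀ σ, IsFrob v σ →
      (ρ σ : Matrix (Fin n) (Fin n) k).charpoly = (P v).map φ) ∧
    Group.IsSolvable ρ.range

theorem UnrOut.mono {M : ℕ} {U V : Subgroup (GK K)} (h : UnrOut M U) (hUV : U ≤ V) : UnrOut M V :=
  fun v hv σ hσ => hUV (h v hv σ hσ)

theorem sol_of_ker {G A B : Type} [Group G] [Group A] [Group B] (f : G →* A) (g : G →* B)
    (h : f.ker ≤ g.ker) (hs : Group.IsSolvable f.range) : Group.IsSolvable g.range := by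
  have hs' : Group.IsSolvable f.range := hs
  have hk : f.ker ≤ g.rangeRestrict.ker := by
    intro x hx
    have h1 : g x = 1 := h hx
    exact Subtype.ext h1
  let q : f.range →* g.range :=
    (QuotientGroup.lift f.ker g.rangeRestrict hk).comp
      (QuotientGroup.quotientKerEquivRange f).symm.toMonoidHom
  refine Group.isSolvable_of_surjective (f := q) ?_
  rintro ⟨_, x, rfl⟩
  refine ⟨⟨f x, x, rfl⟩, ?_⟩
  have h1 : (QuotientGroup.quotientKerEquivRange f).symm ⟨f x, x, rfl⟩ = (x : G ⧸ f.ker) := by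
    rw [MulEquiv.symm_apply_eq]
    rfl
  show (QuotientGroup.lift f.ker g.rangeRestrict hk)
    ((QuotientGroup.quotientKerEquivRange f).symm ⟨f x, x, rfl⟩) = _
  rw [h1]
  rfl

theorem derived_le {G A : Type} [Group G] [Group A] (f : G →* A) (hs : Group.IsSolvable f.range) :
    ∃ r, derivedSeries G r ≤ f.ker := by
  obtain ⟨r, hr⟩ := hs.solvable
  refine ⟨r, fun x hx => ?_⟩
  have h1 : f.rangeRestrict x ∈ derivedSeries f.range r := by
    have h2 := map_derivedSeries_le_derivedSeries f.rangeRestrict r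
    exact h2 (Subgroup.mem_map_of_mem _ hx)
  rw [hr, Subgroup.mem_bot] at h1
  exact congrArg Subtype.val h1

theorem exists_sd (hSS : S_SS) (hMal : S_Mal) (j : E →+* QBar) (N n : ℕ) :
    ∃ β : ℕ, ∀ (P : HeightOneSpectrum (𝓞 K) → (𝓞 E)[X]) (lam : HeightOneSpectrum (𝓞 E)),
      SolRes N n P lam → Nonempty (SD j N n β P lam) := by
  classical
  obtain ⟨β, hβ⟩ := hMal n
  refine ⟨β, ?_⟩
  rintro P lam ⟨k, _, φ, ρ, hφ, hop, hun, hfr, hsol⟩
  set kb := AlgebraicClosure k with hkb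
  set ι : k →+* kb := algebraMap k kb with hι
  obtain ⟨ψ, hψ⟩ := Pool.Agent.Y800.extend j (ι.comp φ)
  have hψ' : ψ.comp (jz j) = ι.comp φ := RingHom.ext hψ
  have hkerE : RingHom.ker (ψ.comp (jz j)) = lam.asIdeal := by
    rw [hψ', ← hφ]
    ext x
    rw [RingHom.mem_ker, RingHom.mem_ker, RingHom.comp_apply]
    exact map_eq_zero_iff ι ι.injective
  set ρb : GK K →* GL (Fin n) kb := (Matrix.GeneralLinearGroup.map ι).comp ρ with hρb
  have hcoe : ∀ g, (ρb g : Matrix (Fin n) (Fin n) kb) = (ρ g : Matrix (Fin n) (Fin n) k).map ι :=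
    fun g => rfl
  have hkerb : ρ.ker ≤ ρb.ker := by
    intro g hg
    rw [MonoidHom.mem_ker] at hg ⊢
    rw [hρb, MonoidHom.comp_apply, hg, map_one]
  obtain ⟨ρ', hk', hcp', hSA⟩ := hSS n kb (GK K) ρb
  have hkk : ρ.ker ≤ ρ'.ker := hkerb.trans hk'
  have hop' : IsOpen (ρ'.ker : Set (GK K)) := Subgroup.isOpen_mono hkk hop
  have hfin' : Finite ρ'.range := fin_range ρ' hop'
  obtain ⟨U, hUn, hUk, hUi, -, hcomm⟩ := hβ kb (GK K) ρ' hfin' (sol_of_ker ρ ρ' hkk hsol) hSA
  obtain ⟨Q, hQ⟩ := hSA U hUn hcomm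
  set ρ2 : GK K →* GL (Fin n) kb := (MulAut.conj Q).toMonoidHom.comp ρ' with hρ2
  have hker2 : ρ2.ker = ρ'.ker := by
    ext g
    rw [MonoidHom.mem_ker, MonoidHom.mem_ker, hρ2, MonoidHom.comp_apply]
    exact map_eq_one_iff _ (MulAut.conj Q).injective
  obtain ⟨r, hr⟩ := derived_le ρ' (sol_of_ker ρ ρ' hkk hsol)
  refine ⟨⟨kb, ψ, ρ2, U, hkerE, by rw [hker2]; exact hop', by rw [hker2]; exact UnrOut.mono hun hkk, ?_,
    hUn, by rw [hker2]; exact hUk, hUi, ⟨r, hr.trans hUk⟩, fun u hu => hQ u hu⟩⟩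
  intro v hv hlv σ hσ
  have h1 : (ρ2 σ : Matrix (Fin n) (Fin n) kb) = (Q : Matrix (Fin n) (Fin n) kb) *
      (ρ' σ : Matrix (Fin n) (Fin n) kb) * ((Q⁻¹ : GL (Fin n) kb) : Matrix (Fin n) (Fin n) kb) := rfl
  have h2 : (ρ2 σ : Matrix (Fin n) (Fin n) kb).charpoly =
      (ρ' σ : Matrix (Fin n) (Fin n) kb).charpoly := by
    rw [h1, Matrix.coe_units_inv]
    exact Matrix.charpoly_units_conj (n := Fin n) (R := kb) Q (ρ' σ : Matrix (Fin n) (Fin n) kb)
  rw [h2, hcp', hcoe, Matrix.charpoly_map, hfr v hv hlv σ hσ, Polynomial.map_map, hψ']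

/-- the polynomials are monic -/
theorem monic_sol (N n : ℕ) (P : HeightOneSpectrum (𝓞 K) → (𝓞 E)[X])
    (hinf : {lam | SolRes N n P lam}.Infinite) (v : HeightOneSpectrum (𝓞 K))
    (hv : (N : 𝓞 K) ∉ v.asIdeal) : (P v).Monic ∧ (P v).natDegree = n := by
  classical
  set S : Set (HeightOneSpectrum (𝓞 E)) := {lam | SolRes N n P lam ∧
    ((Ideal.absNorm v.asIdeal : ℕ) : 𝓞 E) ∉ lam.asIdeal} with hSdef
  have hS : S.Infinite := by
    intro hfin
    apply hinf
    refine (hfin.union (Pool.Agent.H500.Kum.fin_mem (E := E)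
      (x := ((Ideal.absNorm v.asIdeal : ℕ) : 𝓞 E)) (Nat.cast_ne_zero.2 (norm_ne_zero v)))).subset ?_
    intro lam hlam
    by_cases h : ((Ideal.absNorm v.asIdeal : ℕ) : 𝓞 E) ∈ lam.asIdeal
    · exact Or.inr h
    · exact Or.inl ⟨hlam, h⟩
  have key : ∀ lam ∈ S, ∀ m : ℕ, (P v).coeff m - (if m = n then 1 else if n < m then 0
      else (P v).coeff m) ∈ lam.asIdeal := by
    rintro lam ⟨⟨k, _, φ, ρ, hφ, hop, hun, hfr, hsol⟩, hnv⟩ m
    obtain ⟨l, f, hl, hlm, hf0, hlf⟩ := Pool.Agent.H500.R2.exists_char lam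
    have hlv : (l : 𝓞 K) ∉ v.asIdeal := by
      intro h1
      apply hnv
      exact (natCast_mem_iff_dvd hl hlm).2 ((natCast_mem_iff_dvd hl h1).1 (norm_mem v))
    have hlv' : ((Ideal.absNorm lam.asIdeal : ℕ) : 𝓞 K) ∉ v.asIdeal := by
      intro h1
      rw [hlf, Nat.cast_pow] at h1
      exact hlv (v.isPrime.mem_of_pow_mem _ h1)
    obtain ⟨σ, hσ⟩ := frob_at v
    have h1 := hfr v hv hlv' σ hσ
    have hmon := Matrix.charpoly_monic (ρ σ : Matrix (Fin n) (Fin n) k)
    have hdeg := Matrix.charpoly_natDegree_eq_dim (ρ σ : Matrix (Fin n) (Fin n) k)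
    rw [Fintype.card_fin] at hdeg
    rw [← hφ, RingHom.mem_ker, map_sub, ← Polynomial.coeff_map, ← h1]
    by_cases hm : m = n
    · rw [if_pos hm, map_one, hm, sub_eq_zero]
      have h2 := hmon.coeff_natDegree
      rwa [hdeg] at h2
    · rw [if_neg hm]
      by_cases hm2 : n < m
      · rw [if_pos hm2, map_zero, sub_zero]
        exact coeff_eq_zero_of_natDegree_lt (by rw [hdeg]; exact hm2)
      · rw [if_neg hm2, ← Polynomial.coeff_map, ← h1, sub_self]
  have h1 : (P v).coeff n = 1 := by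
    have := zero_of_inf hS fun lam hlam => key lam hlam n
    rw [if_pos rfl, sub_eq_zero] at this
    exact this
  have h2 : ∀ m, n < m → (P v).coeff m = 0 := by
    intro m hm
    have := zero_of_inf hS fun lam hlam => key lam hlam m
    rw [if_neg hm.ne', if_pos hm, sub_zero] at this
    exact this
  have h3 : (P v).natDegree ≤ n := natDegree_le_iff_coeff_eq_zero.2 h2
  have h4 : (P v).natDegree = n := by
    refine le_antisymm h3 (le_natDegree_of_ne_zero ?_)
    rw [h1]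
    exact one_ne_zero
  refine ⟨?_, h4⟩
  rw [Monic, leadingCoeff, h4, h1]

end

end Pool.Agent.H500.TH
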