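import Pool.Agent.H500.TH.Main
import Pool.Agent.H500.R2.Gal
import Pool.Agent.H415.SV.Emb

set_option autoImplicit false
set_option linter.unusedSectionVars false

/-!
# Galois characters, arbitrary coefficients
-/

namespace Pool.Agent.H500.TH

open NumberField IsDedekindDomain Filter Topology Polynomial
open Pool.Agent.W401.Cheb (GK IsFrob IsInert dens)
open Pool.Agent.H500.HC
open Pool.Agent.H500.MW (PosUD)

theorem gal_of (hExp : S_TExp) (hKD : S_TKD) (hInt : S_TInt) (hChi : S_TChi) (hGlue : S_TGlue) :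
    S_TGal := by
  intro K E _ _ _ _ j N n hN P hP
  classical
  -- remove the places above `N`
  have h1 : PosUD (fun lam : HeightOneSpectrum (𝓞 E) => AbGal N n P lam ∧
      ¬ (N : 𝓞 E) ∈ lam.asIdeal) :=
    hP.diff (Pool.Agent.H500.Kum.dens_fin _ (Pool.Agent.H500.Kum.fin_mem (E := E)
      (x := (N : 𝓞 E)) (by exact_mod_cast (by omega : N ≠ 0))))
  -- remove the places with large `r`-parts
  obtain ⟨κ, hκ⟩ := h1.diff_family (N.primeFactors)
    (fun r κ v => r ^ κ ∣ Ideal.absNorm v.asIdeal ^ n.factorial - 1)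
    (fun r _ a b hab v h => (pow_dvd_pow r hab).trans h)
    (fun r hr ε hε => Pool.Agent.H500.MW.small_pow (Nat.factorial_pos n)
      (Nat.prime_of_mem_primeFactors hr) hε)
  have h2 : PosUD (AbRes (N ^ (κ + 2)) n P) := by
    refine hκ.mono fun lam h => Pool.Agent.H500.R2.gal_res hN P lam h.1.2 ?_ h.1.1
    intro r hr hrN h3
    exact h.2 r (Nat.mem_primeFactors.2 ⟨hr, hrN, by omega⟩)
      ((pow_dvd_pow r (Nat.le_succ κ)).trans h3)
  obtain ⟨t, ψ, h3, h4, h5⟩ := main_of hExp hKD all_Split all_Cls hInt hChi hGlue all_Deg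
    Pool.Agent.H415.SV.Emb.main j (N ^ (κ + 2)) n (pow_pos (by omega) _) P h2
  have hcop : ∀ 𝔞 : Ideal (𝓞 K), IsCoprime 𝔞 (Ideal.span {((N ^ (κ + 2) : ℕ) : 𝓞 K)}) ↔
      IsCoprime 𝔞 (Ideal.span {(N : 𝓞 K)}) := by
    intro 𝔞
    rw [Nat.cast_pow, ← Ideal.span_singleton_pow, IsCoprime.pow_right_iff (by omega)]
  refine ⟨κ + 2, t, ψ, fun i 𝔞 h𝔞 => (h3 i 𝔞 h𝔞).trans (hcop 𝔞), h4, fun v hv => h5 v ?_⟩
  intro h
  rw [Nat.cast_pow] at h
  exact hv (v.isPrime.mem_of_pow_mem _ h)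

end Pool.Agent.H500.TH
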