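import Pool.Agent.H500.SV.Stm

set_option autoImplicit false
set_option linter.unusedSectionVars false

/-!
# Project TH (helper500): families which are abelian modulo many places, arbitrary coefficients

Project HC (`Pool/Agent/H500/HC/Defs.lean`, `Stm.lean`, `Main.lean`) treats families with coefficients
in a number field `E` which contains all the conjugates of `K`.  Here `E` is arbitrary.  `F` is a
number field containing `E` and all the conjugates of `K` (`#Hom(K, F) = [K : ℚ]`); the places `lam` of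
`E` of degree one are not split in `F`: the exponents `σ(x)^{a_σ}` are in the residue field of a place
of `F` above `lam`, and the Kummer theory needs the primes `r` which divide `l^f - 1`, not only those
which divide `l - 1`.

Many parts are adaptations of files written for project HC / R2 / SV (named in the docstrings): copy
the file and adapt it.
-/

namespace Pool.Agent.H500.TH

open NumberField IsDedekindDomain Filter Topology Polynomial
open Pool.Agent.W401.Cheb (GK IsFrob IsInert dens)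
open Pool.Agent.W569.FM (OO GF)
open Pool.Agent.H500.HC (InRay IsRayChar TotPos QBar ZBar em typ jz TypQ TypN)
open Pool.Agent.H500.MW (PosUD)
open Pool.Agent.H500.KumI (AffI)
open Pool.Agent.H500.R2 (UnrOut SpC ChD)
open Pool.Agent.H500.SV (Fld SD NoRU Above)

/-! ## Part A: twisted Kummer theory -/

/-- `x` is an eigenvector of `H / m` modulo `r`, with eigenvalue `ω` -/
def EigV {ι : Type} [Fintype ι] {r : ℕ} (m : ℕ) (H : Matrix ι ι ℤ) (ω : ZMod r)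
    (x : ι → ZMod r) : Prop :=
  ∀ i, (m : ZMod r) * ω * x i = ∑ k, (H i k : ZMod r) * x k

/-- PART A1 (group theory, counting in a coset).  Compare `Pool/Agent/H548/HC/Ratio.lean`.
Proof.  (1) `Φ = (Φ i)` is surjective onto `∏ AffI ι (r i)` (`indep`, `surj` in `H548/HC/Ratio.lean`).
(2) Write `g = γ u`, `u ∈ U`.  The conditions at `i` depend only on `Φ i u` (by the condition on the
conjugation, `γ⁻¹ (ker Φ i) γ ⊆ ker Φ i`; `(γ u)^f = γ^f · ∏ (conjugates of u by powers of γ)`).  So the number is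
at most the product over `i` of the number of the `h ∈ AffI ι (r i)` allowed at `i`.  (3) For given `i`,
with `h.a` such that `c i g ≠ w i` everything is allowed.  If `c i g = w i`: let `g` be one such element; the others
are `g h`, `h ∈ U`, `(Φ i h).a = 1`, `x = (Φ i h).x` arbitrary, and
`(g h)^f = g^f (g^{-(f-1)} h g^{f-1}) ⋯ (g⁻¹ h g) h`, so `x((g h)^f) = x(g^f) + D x`, `D = ∑_{j<f} (w⁻¹ H)^j`, where
`(Φ i (g^f)).a = w^f = 1`, `x(g^f)` is in the eigenspace `{H x = w x}` (`g⁻¹ g^f g = g^f`), the image of `D` is the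
eigenspace (`(w⁻¹ H)^f = 1`, `r ∤ f`): so exactly for `#(B ∩ Eig) / #Eig ≤ 1/2` of the `x` it is in `B`.  So at `i`
at most `(r-1) r^ι - r^ι/2` elements of `AffI ι r` are allowed, a proportion `≤ 1 - 1/(2r)`. -/
def S_TRatio : Prop := ∀ (I ι : Type) [Fintype I] [Fintype ι] [DecidableEq ι] (r : I → ℕ)
  [∀ i, Fact (r i).Prime] (G : Type) [Group G] (U : Subgroup G) (γ : G) (f : ℕ)
  (c : ∀ i, G →* (ZMod (r i))ˣ) (Φ : ∀ i, U →* AffI ι (r i)) (H : ∀ i, Matrix ι ι (ZMod (r i)))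
  (w : ∀ i, (ZMod (r i))ˣ) (B : ∀ i, Set (ι → ZMod (r i))),
  U.Normal → 0 < f → γ ^ f ∈ U → Function.Injective r → (∀ i, 3 ≤ r i ∧ ¬ r i ∣ f) →
  (∀ i u, (Φ i u).a = c i u) →
  (∀ t : (i : I) → (ZMod (r i))ˣ, ∃ u : U, ∀ i, (Φ i u).a = t i) →
  (∀ (i : I) (x : ι → ZMod (r i)), ∃ u : U, (Φ i u).a = 1 ∧ (Φ i u).x = x) →
  (∀ (i : I) (g : G), γ⁻¹ * g ∈ U → ∀ u u' : U, (Φ i u).a = 1 → (u' : G) = g⁻¹ * u * g →
    (c i g : ZMod (r i)) • (Φ i u').x = (H i).mulVec (Φ i u).x) →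
  (∀ i, H i ^ f = 1 ∧ w i ^ f = 1) →
  (∀ i, 2 * {x | x ∈ B i ∧ (H i).mulVec x = (w i : ZMod (r i)) • x}.ncard ≤
    {x | (H i).mulVec x = (w i : ZMod (r i)) • x}.ncard) →
  (((QuotientGroup.mk : G → G ⧸ (MonoidHom.pi Φ).ker.map U.subtype) ''
    {g | γ⁻¹ * g ∈ U ∧ ∀ i, c i g = w i → ∀ u : U, (u : G) = g ^ f → (Φ i u).x ∈ B i}).ncard : ℝ) ≤
    (∏ i, (1 - 1 / (2 * (r i : ℝ)))) * (Nat.card (U ⧸ (MonoidHom.pi Φ).ker) : ℝ)

/-- PART A2 (divergence of the sum of the inverses of the primes `≡ 1 mod g`).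
Proof: e.g. the primes `r ≡ 1 mod g` have natural density `1/φ(g) > 0` (Chebotarev,
`Pool.Agent.W528.Ord.chebK`, for `ℚ(ζ_g)`; or the theorem of Dirichlet of Mathlib /
`ArithmeticFunction.vonMangoldt.not_summable_residueClass_prime_div` is weaker), so the sum of `1/r` over them
diverges; compare `Pool.Agent.H500.Kum.exists_R`. -/
def S_Div : Prop := ∀ (g r0 : ℕ) (ε : ℝ), 0 < g → 0 < ε → ∃ R : Finset ℕ,
  (∀ r ∈ R, r.Prime ∧ r0 < r ∧ g ∣ r - 1) ∧ ∏ r ∈ R, (1 - 1 / (2 * (r : ℝ))) < ε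

/-- PART A3 (twisted Kummer density).  From `S_TRatio`, `S_Div`.  Compare `Pool/Agent/H215/HC/DensF.lean`
(the case `U = ⊤`).
Proof.  `ε > 0`; `S_Div` for `g`, `r0' ≥ r0, m, f, disc …`, a finite set `R` of primes with
`[G : U] · ∏ (1 - 1/(2r)) < ε`; for every `r ∈ R` fix `w r ∈ 𝔽_rˣ` of order `g` (`g ∣ r - 1`), a primitive root `z_r`, roots
`y_{r,i}`, `y^r = b i`.  For `u ∈ U` the cocycle `u y_i = z^{κ_i(u)} y_i` and the cyclotomic character `c_r` give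
`Φ_r : U →* AffI ι r` (as `KumI.KJ.Phi`).  The maps `κ` on `{c_r = 1}` are surjective by the independence of the `b i`
(as in `KumI.card_ge` / `kap_surj` in `H215/HC/DensF.lean`; work in the fixed field of `U`, or directly with
`ε ∈ OO E` fixed by `U`; if useful transport everything to `GK L`, `L` = fixed field of `U`, with
`Pool.Agent.H967.SV.Fld.main : S_Fld`, `Pool/Agent/H500/SV/Stm.lean`), the joint surjectivity of the `c_r` on `U` for `r ∤ disc(L)`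
as in `chi_surj` there.  For `g ∈ γ U`, `u ∈ U`, `c_r(u) = 1`: `c_r(g) κ(g⁻¹ u g) = (H/m) κ(u)` (apply `u` to
`(g y_i)^m = (root of unity) ∏ y_k^{H i k}`).  So `S_TRatio` (`B` = `B r (w r)`, matrices `H / m`) bounds the number of
the classes in `γ U / N` of the `σ ∈ γ U` satisfying the conclusion of the hypothesis for all `r ∈ R` and these `z, y`.
Let `N'` be an open normal subgroup of `GF E` contained in `N` (normal core).  The set `S` of the
`σ ∈ γ U` which satisfy the conclusion for all `r ∈ R`, all `z, y, ω, x` is stable under right multiplication by `N'` and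
under conjugation by `U`; the union of its conjugates under `GF E` has at most `[G : U]` times as many classes
modulo `N'`; so `chebK` gives the upper bound `[G : U] ∏ (1 - 1/(2r)) / [G : U]`... for the density of `P` (the finitely
many `lam` containing some `r ∈ R` do not matter). -/
def S_TDens : Prop := ∀ (E ι : Type) [Field E] [NumberField E] [Fintype ι] [DecidableEq ι]
  (b : ι → OO E) (U : Subgroup (GF E)) (γ : GF E) (f g m r0 : ℕ) (H : Matrix ι ι ℤ)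
  (B : ∀ r : ℕ, ZMod r → Set (ι → ZMod r)), (∀ i, b i ≠ 0) → U.Normal →
  IsOpen (U : Set (GF E)) → 0 < f → γ ^ f ∈ U → 0 < m → g ∣ f →
  H ^ f = (m : ℤ) ^ f • (1 : Matrix ι ι ℤ) →
  (∀ u ∈ U, ∀ i, u • b i = b i) →
  (∀ u, γ⁻¹ * u ∈ U → ∀ i, ((u • b i : OO E) : AlgebraicClosure E) ^ m =
    ∏ k, ((b k : OO E) : AlgebraicClosure E) ^ H i k) →
  (∀ r : ℕ, r.Prime → r0 < r → ∀ x : ι → ZMod r,
    (∃ ε : OO E, (∀ u ∈ U, u • ε = ε) ∧ ε ^ r = ∏ i, b i ^ (x i).val) → x = 0) →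
  (∀ r : ℕ, r.Prime → r0 < r → ∀ ω : ZMod r, orderOf ω = g →
    2 * {x | x ∈ B r ω ∧ EigV m H ω x}.ncard ≤ {x | EigV m H ω x}.ncard) →
  ∀ P : HeightOneSpectrum (𝓞 E) → Prop,
  (∀ lam, P lam → ∃ σ, IsFrob lam σ ∧ γ⁻¹ * σ ∈ U ∧ ∀ r : ℕ, r.Prime → r0 < r →
    (r : 𝓞 E) ∉ lam.asIdeal → ∀ (z : OO E) (y : ι → OO E) (ω : ZMod r) (x : ι → ZMod r),
    IsPrimitiveRoot z r → (∀ i, y i ^ r = b i) → σ • z = z ^ ω.val → orderOf ω = g →
    (∀ i, (σ ^ f) • y i = z ^ (x i).val * y i) → x ∈ B r ω) →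
  Tendsto (dens P) atTop (𝓝 0)

/-- PART A4 (linear algebra over a number field).  As `Pool.Agent.H500.HC.S_Bad` (read its docstring), with
coefficients in `𝓞_C`: adapt `Pool/Agent/H253/HC/BadC.lean` (a nonzero polynomial with coefficients in `𝓞_C`
is not zero modulo the kernel of `π : 𝓞_C → 𝔽_r` for large `r`). -/
def S_BadC : Prop := ∀ (C : Type) [Field C] [NumberField C] (ι V T : Type) [Fintype ι] [Fintype V]
  [Fintype T] (Vs : Finset V) (L : V → ι → 𝓞 C) (M : V → T → ι → 𝓞 C),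
  Fintype.card T < Vs.card →
  (∀ n : V → T → 𝓞 C, (∀ v, v ∉ Vs → n v = 0) →
    (∀ i, ∑ v, ∑ s, n v s * M v s i = 0) → n = 0) →
  (¬ ∃ (m : 𝓞 C) (c : T → 𝓞 C), m ≠ 0 ∧ ∀ v i, m * L v i = ∑ s, c s * M v s i) →
  ∃ r0 : ℕ, ∀ r : ℕ, r.Prime → r0 < r → ∀ π : 𝓞 C →+* ZMod r,
    2 * {x : ι → ZMod r | ∃ a : T → ZMod r, ∀ v, ∑ i, π (L v i) * x i =
      ∑ s, a s * ∑ i, π (M v s i) * x i}.ncard ≤ r ^ Fintype.card ι

/-- PART A5 (the bad vectors in the eigenspaces).  From `S_BadC`.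
Proof.  Let `h = H / m` (over `ℚ`), `h^f = 1`, `M v (p s) = M v s h`.  For `g ∣ f` let `C = ℚ(ζ_g)`, `ζ = ζ_g`,
`D_ζ = m^{f-1} ∑_{j<f} ζ^{-j} h^j` (entries in `𝓞_C`), `h D_ζ = ζ D_ζ`.  Let `T_g ⊆ T` be a set of representatives of the
orbits of `p` whose length is divisible by `g`.  The forms `M v s D_ζ`, `v ∈ Vs`, `s ∈ T_g`, are linearly
independent: `∑ n_{vs} M v s D_ζ = 0` gives `∑ n_{vs} ζ^{-j} M v (p^j s) = 0`, the coefficient of `M v (p^i s)` is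
`(f / #orbit) n_{vs} ζ^{-i}` up to a factor (here the `M v s`, `v ∈ Vs`, are linearly independent over `ℚ`, so over `C`).
(a) If for every `g ∣ f` there is a relation `m' L v D_ζ = ∑_{s ∈ T_g} c_s M v s D_ζ` over `C` (`m' ≠ 0`), then
there are polynomials `q_s ∈ ℚ[X]` (`s` in a set of representatives of all the orbits) with
`q_s(ζ_g) = c_s / m'` for all `g ∣ f` (zero if `s ∉ T_g`; Chinese remainder theorem in `ℚ[X]` modulo the
cyclotomic polynomials `Φ_g`, `g ∣ f`), and `L v D_ζ = ∑_s M v s q_s(h) D_ζ` for all `ζ^f = 1` (conjugation); the sum of the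
`D_ζ` is `f m^{f-1}`, so `L v = ∑_s M v s q_s(h) = ∑_s ∑_i q_{s,i} M v (p^i s)`: a rational relation, excluded.
(b) So there is a `g` without such a relation; `S_BadC` for `C`, `T_g`, the forms `L v D_ζ`, `M v s D_ζ`.  For `ω` of
order `g` modulo `r` (`r` large) there is `π : 𝓞_C → 𝔽_r` with `π(ζ) = ω`.  `y ↦ π(D_ζ) y` maps `𝔽_r^ι` onto the
eigenspace `{x | EigV m H ω x}` (`r ∤ f m`), all fibres have the same number of elements; and for `x` in the
eigenspace `M v (p s) x = ω M v s x`, so `M v s x = 0` if the length of the orbit of `s` is not divisible by `g`,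
and `∑_s a_s M v s x` is a combination of the `M v s x`, `s ∈ T_g`, with coefficients independent of `v`. -/
def S_TBad : Prop := ∀ (ι V T : Type) [Fintype ι] [DecidableEq ι] [Fintype V] [Fintype T]
  (Vs : Finset V) (f m : ℕ) (H : Matrix ι ι ℤ) (p : Equiv.Perm T) (L : V → ι → ℤ)
  (M : V → T → ι → ℤ), 0 < f → 0 < m → H ^ f = (m : ℤ) ^ f • (1 : Matrix ι ι ℤ) →
  (∀ v s k, (m : ℤ) * M v (p s) k = ∑ i, M v s i * H i k) → Fintype.card T < Vs.card →
  (∀ n : V → T → ℤ, (∀ v, v ∉ Vs → n v = 0) →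
    (∀ i, ∑ v, ∑ s, n v s * M v s i = 0) → n = 0) →
  (¬ ∃ (m' : ℤ) (c : T → ℤ), m' ≠ 0 ∧ ∀ v i, m' * L v i = ∑ s, c s * M v s i) →
  ∃ g, g ∣ f ∧ ∃ r0 : ℕ, ∀ r : ℕ, r.Prime → r0 < r → ∀ ω : ZMod r, orderOf ω = g →
    2 * {x : ι → ZMod r | (∃ a : T → ZMod r, ∀ v, ∑ i, (L v i : ZMod r) * x i =
      ∑ s, a s * ∑ i, (M v s i : ZMod r) * x i) ∧ EigV m H ω x}.ncard ≤
      {x : ι → ZMod r | EigV m H ω x}.ncard

/-- PART A6 (density, elements of an algebraic closure of `E`).  From `S_TDens`, `S_TBad`,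
`Pool.Agent.H500.HC.S_Indep`.  Compare `Pool/Agent/H870/HC/KD.lean`.
Proof.  Let `U` be an open normal subgroup of `GF E` which fixes all `A v`, `X v s` (and so all their
conjugates).  It is enough to show density zero for the `lam` with a `Q` as in the set and a Frobenius
element `σ` for this `Q` (`σ x ≡ x^{N(lam)} mod Q` for all `x`; exists: `Pool.Agent.W401.Frob`) in a given coset `γ U` (finitely
many).  Let `f > 0` with `γ^f ∈ U`, `p` the permutation of `T` for `γ` (also for all of `γ U`).  Let `b` be a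
maximal multiplicatively independent subfamily of the finite family of the conjugates of the `A v`, `X v s`;
`m0 > 0`, `(A v)^{m0} = ∏ b_i^{L v i}`, `(X v s)^{m0} = ∏ b_i^{M v s i}`, `(γ b_i)^m = ∏ b_k^{H i k}` (one may take `m = m0`).
Independence gives `H^f = m^f`, `m M v (p s) = M v s H`.  The independence modulo `r`-th powers of elements
fixed by `U` for large `r`: `S_Indep` for the fixed field of `U` (or repeat its proof).  No relation
`m' L v = ∑ c_s M v s` (otherwise `(A v)^{m0 m'} = ∏ (X v s)^{m0 c_s}`; squares to make the exponent positive).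
`S_TBad` gives `g`, `r0`; apply `S_TDens` with `B r ω = {x | ∃ a, ∀ v, L v x = ∑ a_s M v s x}`.  For `σ`, `Q` as above
and `z`, `y`, `ω`, `x` as there (exclude the finitely many `lam` containing conjugates of `A v`, `X v s`): choose
roots `y_A^r = A v`, `y_s^r = X v s`; `y_A^r ≡ ∏ (y_s^{a_s})^r mod Q`, so `y_A ≡ z^c ∏ y_s^{a_s} mod Q`; apply `σ^f` (which is
`x ↦ x^{q^f}` modulo `Q`, and fixes `z`, as `g ∣ f`): `κ(A v) = ∑_s a_s κ(X v s)` in `𝔽_r`, `σ^f y_A = z^{κ(A v)} y_A`, and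
`m0 κ(A v) = ∑ L v i x_i`, `m0 κ(X v s) = ∑ M v s i x_i`. -/
def S_TKD0 : Prop := ∀ (E V T : Type) [Field E] [NumberField E] [Fintype V] [Fintype T]
  (Vs : Finset V) (A : V → OO E) (X : V → T → OO E), Fintype.card T < Vs.card →
  (∀ v, A v ≠ 0) → (∀ v s, X v s ≠ 0) →
  (∀ g : GF E, ∃ p : Equiv.Perm T, ∀ v s, g • X v s = X v (p s)) →
  (∀ n : V → T → ℤ, (∀ v, v ∉ Vs → n v = 0) →
    ∏ v, ∏ s, ((X v s : OO E) : AlgebraicClosure E) ^ n v s = 1 → n = 0) →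
  (¬ ∃ (m : ℕ) (c : T → ℤ), 0 < m ∧ ∀ v, ((A v : OO E) : AlgebraicClosure E) ^ m =
    ∏ s, ((X v s : OO E) : AlgebraicClosure E) ^ c s) →
  Tendsto (dens fun lam : HeightOneSpectrum (𝓞 E) => ∃ Q : Ideal (OO E), Q.IsMaximal ∧
    Q.comap (algebraMap (𝓞 E) (OO E)) = lam.asIdeal ∧
    ∃ a : T → ℕ, ∀ v, A v - ∏ s, X v s ^ a s ∈ Q) atTop (𝓝 0)

/-- PART A7 (transport to `QBar`).  From `S_TKD0`: `AlgebraicClosure E` is isomorphic to `QBar` over `j ∘ i`
(both are algebraic closures of `E`); `Q` corresponds to the kernel of `ψ` (a maximal ideal, as it lies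
above `lam` and `ZBar` is integral). -/
def S_TKD : Prop := ∀ (E F V T : Type) [Field E] [NumberField E] [Field F] [NumberField F]
  [Fintype V] [Fintype T] (i : E →+* F) (j : F →+* QBar) (Vs : Finset V) (A : V → ZBar)
  (X : V → T → 𝓞 F), Fintype.card T < Vs.card → (∀ v, A v ≠ 0) → (∀ v s, X v s ≠ 0) →
  (∀ g : QBar ≃+* QBar, (∀ x, g (j (i x)) = j (i x)) → ∃ p : Equiv.Perm T, ∀ v s,
    g (j ((X v s : 𝓞 F) : F)) = j ((X v (p s) : 𝓞 F) : F)) →
  (∀ n : V → T → ℤ, (∀ v, v ∉ Vs → n v = 0) →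
    ∏ v, ∏ s, ((X v s : 𝓞 F) : F) ^ n v s = 1 → n = 0) →
  (¬ ∃ (m : ℕ) (c : T → ℤ), 0 < m ∧ ∀ v, (algebraMap ZBar QBar (A v)) ^ m =
    ∏ s, (j ((X v s : 𝓞 F) : F)) ^ c s) →
  Tendsto (dens fun lam : HeightOneSpectrum (𝓞 E) => ∃ (k : Type) (_ : Field k) (ψ : ZBar →+* k),
    RingHom.ker (ψ.comp (jz (j.comp i))) = lam.asIdeal ∧
    ∃ a : T → ℕ, ∀ v, ψ (A v) = ∏ s, ψ (jz j (X v s)) ^ a s) atTop (𝓝 0)

/-! ## Part B: places and exponents -/

/-- PART B1.  The places of `K` below a place `L` of `F`.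
Proof.  Suppose not.  Choose `x ∈ w`, `x ≡ 1` modulo the finitely many other places of `K` above `l`, in
particular `x ∉ L.comap t` for all `t`.  `∏_t t(x)` is the norm of `x` (`#Hom(K, F) = [K : ℚ]`), an integer in `w`
(the norm is a multiple of `x`), so divisible by `l`, so in `L`: some `t(x) ∈ L`. -/
def S_Plc : Prop := ∀ (K F : Type) [Field K] [NumberField K] [Field F] [NumberField F],
  Fintype.card (K →+* F) = Module.finrank ℚ K → ∀ (L : HeightOneSpectrum (𝓞 F))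
  (w : HeightOneSpectrum (𝓞 K)) (l : ℕ), l.Prime → (l : 𝓞 F) ∈ L.asIdeal → (l : 𝓞 K) ∈ w.asIdeal →
  ∃ t : K →+* F, L.asIdeal.comap (RingOfIntegers.mapRingHom t) = w.asIdeal

/-- PART B2 (the exponents).  From `S_Plc`.  Compare `Pool/Agent/H181/HC/Exp.lean`.
Proof.  `B` such that all primes `l > B` are unramified in `K`.  `(l)` is the product of the different places
`w` above `l`; for each `w` choose `t_w : K →+* F` with `L.comap t_w = w` (`S_Plc`).  `𝓞_K / w` embeds by `t_w` in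
`𝓞_F / L ⊆ k`.  Choose `y_w ∈ 𝓞_K`, `InRay N y_w`, `y_w` a generator of `(𝓞_K / w)ˣ` modulo `w`, `≡ 1` modulo the other
places above `l` (Chinese remainder theorem, then add a multiple of `N l` to make it totally positive).
`χ((y_w))^{q_w - 1} = 1` (`y_w^{q_w - 1} ≡ 1 mod l`), and `φ(t_w(y_w))` is a primitive `(q_w - 1)`-th root of unity in `k`, so
`χ((y_w)) = φ(t_w(y_w))^{a_w}`.  As in `Exp.lean`: for `x` in the ray, prime to `l`, multiply by powers of the `y_w` to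
get an element of the ray modulo `N l`. -/
def S_TExp : Prop := ∀ (K F : Type) [Field K] [NumberField K] [Field F] [NumberField F],
  Fintype.card (K →+* F) = Module.finrank ℚ K → ∃ B : ℕ, ∀ (L : HeightOneSpectrum (𝓞 F)) (l : ℕ),
  l.Prime → (l : 𝓞 F) ∈ L.asIdeal → B < l → ∀ N : ℕ, 0 < N → ¬ l ∣ N →
  ∀ (k : Type) [Field k] (φ : 𝓞 F →+* k), RingHom.ker φ = L.asIdeal →
  ∀ χ : Ideal (𝓞 K) →*₀ k, IsRayChar (N * l) χ → ∃ a : (K →+* F) → ℕ,
    (∀ t t' : K →+* F, a t ≠ 0 → a t' ≠ 0 → L.asIdeal.comap (RingOfIntegers.mapRingHom t) =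
      L.asIdeal.comap (RingOfIntegers.mapRingHom t') → t = t') ∧
    ∀ x : 𝓞 K, InRay N x → IsCoprime (Ideal.span {x}) (Ideal.span {(l : 𝓞 K)}) →
      χ (Ideal.span {x}) = ∏ t, φ (em t x) ^ a t

/-! ## Part C: Hecke characters -/

section

variable {K F : Type} [Field K] [NumberField K] [Field F] [NumberField F]

/-- The local data at a place `L` of `F` (of any degree). -/
structure GLoc (j : F →+* QBar) (N n : ℕ) (α : HeightOneSpectrum (𝓞 K) → Fin n → ZBar)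
    (L : HeightOneSpectrum (𝓞 F)) where
  k : Type
  [fk : Field k]
  ψ : ZBar →+* k
  l : ℕ
  χ : Fin n → Ideal (𝓞 K) →*₀ k
  hker : RingHom.ker (ψ.comp (jz j)) = L.asIdeal
  hl : l.Prime
  hmem : (l : 𝓞 F) ∈ L.asIdeal
  hlN : ¬ l ∣ N
  hray : ∀ i, IsRayChar (N * l) (χ i)
  hroots : ∀ v : HeightOneSpectrum (𝓞 K), (N : 𝓞 K) ∉ v.asIdeal → (l : 𝓞 K) ∉ v.asIdeal →
    ∃ π : Equiv.Perm (Fin n), ∀ i, ψ (α v (π i)) = χ i v.asIdeal

attribute [instance] GLoc.fk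

/-- local data where the characters have the types `t i` on the ray -/
structure GLoc2 (j : F →+* QBar) (N n : ℕ) (α : HeightOneSpectrum (𝓞 K) → Fin n → ZBar)
    (t : Fin n → (K →+* F) → ℕ) (L : HeightOneSpectrum (𝓞 F)) where
  k : Type
  [fk : Field k]
  ψ : ZBar →+* k
  l : ℕ
  χ : Fin n → Ideal (𝓞 K) →*₀ k
  hker : RingHom.ker (ψ.comp (jz j)) = L.asIdeal
  hl : l.Prime
  hmem : (l : 𝓞 F) ∈ L.asIdeal
  hray : ∀ i, IsRayChar (N * l) (χ i)
  htyp : ∀ i (x : 𝓞 K), InRay N x → IsCoprime (Ideal.span {x}) (Ideal.span {(l : 𝓞 K)}) →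
    χ i (Ideal.span {x}) = ψ (jz j (typ (t i) x))
  hroots : ∀ v : HeightOneSpectrum (𝓞 K), (N : 𝓞 K) ∉ v.asIdeal → (l : 𝓞 K) ∉ v.asIdeal →
    ∃ π : Equiv.Perm (Fin n), ∀ i, ψ (α v (π i)) = χ i v.asIdeal

attribute [instance] GLoc2.fk

/-- the algebraic type with values in `ZBar` -/
noncomputable def typB (t : (K →+* QBar) → ℕ) (x : 𝓞 K) : ZBar :=
  ∏ σ, RingOfIntegers.mapRingHom σ x ^ t σ

end

/-- PART C1 (the types are natural numbers).  As `Pool.Agent.H500.HC.S_Int`, for local data at places of any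
degree: adapt `Pool/Agent/H738/HC/Int.lean` (`L.hnorm` is replaced by `L.hmem`; the `l` are unbounded as
there are finitely many places of `F` above a given prime number). -/
def S_TInt : Prop := ∀ (K F : Type) [Field K] [NumberField K] [Field F] [NumberField F],
  Fintype.card (K →+* F) = Module.finrank ℚ K → ∀ (j : F →+* QBar) (N n h : ℕ), 0 < N → 0 < h →
  ∀ (P : HeightOneSpectrum (𝓞 K) → (𝓞 F)[X]) (α : HeightOneSpectrum (𝓞 K) → Fin n → ZBar),
  (∀ v : HeightOneSpectrum (𝓞 K), (N : 𝓞 K) ∉ v.asIdeal →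
    (P v).map (jz j) = ∏ i, (X - Polynomial.C (α v i))) →
  {L : HeightOneSpectrum (𝓞 F) | Nonempty (GLoc j N n α L)}.Infinite →
  ∀ t : Fin n → (K →+* F) → ℚ, TypQ j N n h α t → ∀ i σ, ∃ a : ℕ, t i σ = a

/-- PART C2 (two places: the characters have the types `t i` on the ray).  As `Pool.Agent.H500.HC.S_Chi` (read its
docstring), adapt `Pool/Agent/H721/HC/Chi.lean`; the group in (3) is now `(𝓞_K / l)ˣ`:
Let `D` be data at `L`, `D.l > B` (`n`, …), `L'` another place with data `D'`, `D'.l ≠ D.l` large.  (1) For a class `g` of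
`(𝓞_K / l)ˣ` choose `y0 ∈ 𝓞_K` in the class with `y0 ≡ 1 mod N D'.l` (Chinese remainder for integers; prime to
`N l D'.l`), and a prime `v = (y)`, `y ≡ y0 mod N l D'.l`, totally positive (`all_Dir`).  As before
`α v (π i) = jz j (typ (t i) y)`.  (2) `f i : (𝓞_K / l)ˣ → kˣ`, `f i g = D.χ i (y)` for any `y` in the ray modulo `N`
in the class `g` (well defined homomorphism by `D.hray`), and `g i : y ↦ D.ψ (jz j (typ (t i) y))` (depends only on `y`
modulo `l`).  `S_Chars` (`Pool.Agent.H500.HC.all_Chars`) for the group `(𝓞_K / l)ˣ`. -/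
def S_TChi : Prop := ∀ (K F : Type) [Field K] [NumberField K] [Field F] [NumberField F],
  Fintype.card (K →+* F) = Module.finrank ℚ K → ∀ (j : F →+* QBar) (N n h : ℕ), 0 < N → 0 < h →
  ∀ (P : HeightOneSpectrum (𝓞 K) → (𝓞 F)[X]) (α : HeightOneSpectrum (𝓞 K) → Fin n → ZBar),
  (∀ v : HeightOneSpectrum (𝓞 K), (N : 𝓞 K) ∉ v.asIdeal →
    (P v).map (jz j) = ∏ i, (X - Polynomial.C (α v i))) →
  {L : HeightOneSpectrum (𝓞 F) | Nonempty (GLoc j N n α L)}.Infinite →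
  ∀ t : Fin n → (K →+* F) → ℕ, TypN j N n h α t →
  ∃ B : ℕ, ∀ (L : HeightOneSpectrum (𝓞 F)) (D : GLoc j N n α L), B < D.l →
    ∃ π : Equiv.Perm (Fin n), ∀ i (x : 𝓞 K), InRay N x →
      IsCoprime (Ideal.span {x}) (Ideal.span {(D.l : 𝓞 K)}) →
      D.χ i (Ideal.span {x}) = D.ψ (jz j (typ (t (π i)) x))

/-- PART C3 (the characters in characteristic zero).  As `Pool.Agent.H500.HC.S_Glue`: adapt
`Pool/Agent/H401/HC/Glue.lean` (`hnorm` replaced by `hmem`, the condition `em σ x ∉ lam` by: `x` prime to `l`). -/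
def S_TGlue : Prop := ∀ (K F : Type) [Field K] [NumberField K] [Field F] [NumberField F]
  (j : F →+* QBar) (N n h : ℕ) (R : Finset (Ideal (𝓞 K))), 0 < N → 0 < h →
  (∀ 𝔯 ∈ R, 𝔯 ≠ ⊥ ∧ IsCoprime 𝔯 (Ideal.span {(N : 𝓞 K)})) →
  (∀ 𝔞 : Ideal (𝓞 K), 𝔞 ≠ ⊥ → IsCoprime 𝔞 (Ideal.span {(N : 𝓞 K)}) →
    (∃ x : 𝓞 K, InRay N x ∧ 𝔞 ^ h = Ideal.span {x}) ∧
    ∃ 𝔯 ∈ R, ∃ x : 𝓞 K, InRay N x ∧ 𝔞 * 𝔯 ^ (h - 1) = Ideal.span {x}) →
  ∀ (P : HeightOneSpectrum (𝓞 K) → (𝓞 F)[X]) (α : HeightOneSpectrum (𝓞 K) → Fin n → ZBar),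
  (∀ v : HeightOneSpectrum (𝓞 K), (N : 𝓞 K) ∉ v.asIdeal →
    (P v).map (jz j) = ∏ i, (X - Polynomial.C (α v i))) →
  ∀ t : Fin n → (K →+* F) → ℕ,
  {L : HeightOneSpectrum (𝓞 F) | Nonempty (GLoc2 j N n α t L)}.Infinite →
  ∃ ψ : Fin n → (Ideal (𝓞 K) →*₀ ZBar),
    (∀ i (𝔞 : Ideal (𝓞 K)), 𝔞 ≠ ⊥ → (ψ i 𝔞 ≠ 0 ↔ IsCoprime 𝔞 (Ideal.span {(N : 𝓞 K)}))) ∧
    (∀ i (x : 𝓞 K), InRay N x → ψ i (Ideal.span {x}) = jz j (typ (t i) x)) ∧
    ∀ v : HeightOneSpectrum (𝓞 K), (N : 𝓞 K) ∉ v.asIdeal →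
      (P v).map (jz j) = ∏ i, (X - Polynomial.C (ψ i v.asIdeal))

/-! ## Part D: characters of bounded order -/

/-- the pattern at a place `L` of `F` above `l` of a character of `(𝓞_K / l)ˣ` of order `r`: for each place `w`
of `K` above `l` at most one `t : K →+* F` with `L.comap t = w` and `c t ≠ 0` -/
structure Pat {K F : Type} [Field K] [NumberField K] [Field F] [NumberField F] (r l : ℕ)
    (L : HeightOneSpectrum (𝓞 F)) (c e : (K →+* F) → ℕ) : Prop where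
  ne : ∃ t, ¬ r ∣ c t
  lt : ∀ t, c t < r
  deg : ∀ t : K →+* F,
    Ideal.absNorm (L.asIdeal.comap (RingOfIntegers.mapRingHom t)) = l ^ e t
  dvd : ∀ t, c t ≠ 0 → r ∣ l ^ e t - 1
  inj : ∀ t t' : K →+* F, c t ≠ 0 → c t' ≠ 0 → L.asIdeal.comap (RingOfIntegers.mapRingHom t) =
    L.asIdeal.comap (RingOfIntegers.mapRingHom t') → t = t'

/-- PART D1 (the structure at `l` of the characters of order dividing `m`).  From `S_Plc`, `S_TExp`,
`Pool.Agent.H500.AS.all_Bridge`, `all_Mod`.  Compare `Pool/Agent/H294/R2/Str.lean` (and the docstring of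
`Pool.Agent.H500.R2.S_Str`).
Proof.  As there: `θ` gives `χ` and `χ' : Ideal →*₀ k` (`k` an algebraic closure of `𝓞_F / L`), a ray class character
modulo `N^(m+2) * l`, and by `S_TExp` exponents `a`, supported on at most one `t_w` for each place `w` of `K` above
`l`.  Let `q_w = l^{e}` be the norm of `w`.  With an element of the ray modulo `N^(m+2)` which is a generator modulo `w` and `≡ 1`
modulo the other places above `l` one gets `(q_w - 1) ∣ m a_w`.  If `(q_w - 1) ∣ a_w` for all `w`, we are in the first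
case.  Otherwise the numbers `a_w / (q_w - 1)` generate a cyclic subgroup of `ℚ/ℤ` of order `D ∣ m`,
`D > 1`; let `r ∣ D` be a prime number, and `c_w / r = (D / r) a_w / (q_w - 1)` in `ℚ/ℤ`, `0 ≤ c_w < r` (`r ∣ q_w - 1` if
`c_w ≠ 0`).  `χ((x)) = 1` gives `∏ t_w(x)^{a_w} = 1`, to the power `D / r`: `∏ t_w(x)^{c_w (q_w - 1)/r} = 1` in `k`. -/
def S_TStr : Prop := ∀ (K F : Type) [Field K] [NumberField K] [Field F] [NumberField F],
  Fintype.card (K →+* F) = Module.finrank ℚ K → ∀ N m : ℕ, 2 ≤ N → 0 < m → ∃ B : ℕ,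
  ∀ (L : HeightOneSpectrum (𝓞 F)) (l : ℕ), l.Prime → (l : 𝓞 F) ∈ L.asIdeal → B < l →
  ∀ θ : GK K →* ℂˣ, IsOpen (θ.ker : Set (GK K)) → (∀ σ, θ σ ^ m = 1) →
  UnrOut (N * l) θ.ker →
  ∃ χ : Ideal (𝓞 K) →*₀ ℂ, ChD (N * l) θ χ ∧
    ((∀ x : 𝓞 K, InRay (N ^ (m + 2)) x →
      IsCoprime (Ideal.span {x}) (Ideal.span {(l : 𝓞 K)}) → χ (Ideal.span {x}) = 1) ∨
    ∃ (r : ℕ) (c e : (K →+* F) → ℕ), r.Prime ∧ r ∣ m ∧ Pat r l L c e ∧
      ∀ x : 𝓞 K, InRay (N ^ (m + 2)) x →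
        IsCoprime (Ideal.span {x}) (Ideal.span {(l : 𝓞 K)}) → χ (Ideal.span {x}) = 1 →
        ∏ t, em t x ^ (c t * ((l ^ e t - 1) / r)) - 1 ∈ L.asIdeal)

/-- PART D2 (conductor prime to `l`: unramified at `l`, with finitely many exceptions).  As
`Pool.Agent.H500.R2.S_Pig`: adapt `Pool/Agent/H740/R2/Pig.lean` (the condition `em σ x ∉ lam` is replaced by: `x` prime
to `l`). -/
def S_TPig : Prop := ∀ (K E : Type) [Field K] [NumberField K] [Field E] [NumberField E],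
  ∀ N M m : ℕ, 0 < N → 0 < m →
  {lam : HeightOneSpectrum (𝓞 E) | (Ideal.absNorm lam.asIdeal).Prime ∧
    ∃ (θ : GK K →* ℂˣ) (χ : Ideal (𝓞 K) →*₀ ℂ), IsOpen (θ.ker : Set (GK K)) ∧ (∀ σ, θ σ ^ m = 1) ∧
    UnrOut (N * Ideal.absNorm lam.asIdeal) θ.ker ∧ ¬ UnrOut N θ.ker ∧
    ChD (N * Ideal.absNorm lam.asIdeal) θ χ ∧
    ∀ x : 𝓞 K, InRay (N ^ M) x →
      IsCoprime (Ideal.span {x}) (Ideal.span {((Ideal.absNorm lam.asIdeal : ℕ) : 𝓞 K)}) →
      χ (Ideal.span {x}) = 1}.Finite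

/-- PART D3 (independent elements).  As `Pool.Agent.H500.R2.S_CB1`, all the conjugates are independent: adapt
`Pool/Agent/H643/R2/CB1.lean`.  (For `σ0`, `i`: a place `w` of `F` with `{x : σ0(x) ∈ w} = v_i`; `ord_w (em σ0 (x i)) = 1`,
`ord_w (em σ (x i')) = 0` for all other `(i', σ)`; so `r ∣ n i σ0`.) -/
def S_TCB1 : Prop := ∀ (K F : Type) [Field K] [NumberField K] [Field F] [NumberField F],
  Fintype.card (K →+* F) = Module.finrank ℚ K → ∀ (N r s : ℕ), 0 < N → r.Prime →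
  ∀ V : Set (HeightOneSpectrum (𝓞 K)), V.Infinite →
  (∀ v ∈ V, (N : 𝓞 K) ∉ v.asIdeal ∧ SpC F v) →
  ∃ (T : Finset (HeightOneSpectrum (𝓞 K))) (x : Fin s → 𝓞 K), (∀ v ∈ T, v ∈ V) ∧
    (∀ i, InRay N (x i) ∧ ∃ w ∈ T, ∃ w1 ∈ T, ∃ e : ℕ,
      w.asIdeal * w1.asIdeal ^ e = Ideal.span {x i}) ∧
    ∀ n : Fin s → (K →+* F) → ZMod r,
      (∃ ε : 𝓞 F, ε ^ r = ∏ i, ∏ σ, em σ (x i) ^ (n i σ).val) → n = 0

/-- PART D4 (twisted Kummer theory and Chebotarev for one prime `r`).  Compare `Pool/Agent/H539/R2/CB2.lean`,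
`KumI.lean`, `Pool/Agent/H215/HC/DensF.lean`.
Proof.  Let `lam` be large with `P lam`, `L`, `c`, `e`; `L` corresponds to a maximal ideal `Q` of `OO E` above `lam` and an
embedding of `F` in the algebraic closure of `E` over `i`; `σ` a Frobenius element for `Q`.  `σ` acts on the
embeddings `t : K →+* F` (they are all the embeddings of `K` in the algebraic closure).  For `l` large (unramified)
`L.comap t = L.comap t'` if and only if `t'` is in the `σ`-orbit of `t`, and `e t` is the length of the orbit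
(`t'(x) ≡ t(x)^{l^i}` modulo `L` for all `x` implies `t' = σ^i t`: choose `x` generating `K`, `l` prime to the
differences).  Let `z` be a primitive `r`-th root of unity, `y_{a,t}^r = t(x a)`, `σ^{e t} y_{a,t} = z^{κ_{a,t}} y_{a,t}`.  If `c t ≠ 0`
then `σ^{e t} z = z`, and `t(x a)^{(l^{e t}-1)/r} ≡ z^{κ_{a,t}}`.  So `∑_t c t κ_{a,t} = 0` in `𝔽_r` for all `a`.
Let `U` be the subgroup of `GF E` fixing the image of `F` and `z`; given `σ` replace it by `σ u`, `u ∈ U`,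
`u y_{a,t} = z^{k_{a,t}} y_{a,t}`, where `(k_{a,t})` is arbitrary (independence).  `κ_{a,t}` changes by
`∑_{j < e t} (power of ω) k_{a,σ^j t}` (`σ z = z^ω`, suitable choice of the `y`), and so `∑_t c t κ_{a,t}` changes by a
nonzero linear form in the `k_{a,·}` (different `t` in the support of `c` have disjoint orbits).  So in each
coset `σ U` exactly the proportion `r^{-s}` of the elements satisfies the `s` equations.  Sum over the
cosets, the patterns `c` and the embeddings of `F`: `C` depends only on `K`, `E`, `F`, `r`. -/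
def S_TCB2 : Prop := ∀ (K E F : Type) [Field K] [NumberField K] [Field E] [NumberField E]
  [Field F] [NumberField F] (i : E →+* F), Fintype.card (K →+* F) = Module.finrank ℚ K →
  ∀ r : ℕ, r.Prime → ∃ C : ℝ, ∀ (s : ℕ) (x : Fin s → 𝓞 K), (∀ a, x a ≠ 0) →
  (∀ n : Fin s → (K →+* F) → ZMod r,
    (∃ ε : 𝓞 F, ε ^ r = ∏ a, ∏ t, em t (x a) ^ (n a t).val) → n = 0) →
  ∀ P : HeightOneSpectrum (𝓞 E) → Prop,
  (∀ lam, P lam → (Ideal.absNorm lam.asIdeal).Prime ∧ ∃ L : HeightOneSpectrum (𝓞 F),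
    L.asIdeal.comap (RingOfIntegers.mapRingHom i) = lam.asIdeal ∧
    ∃ c e : (K →+* F) → ℕ, Pat r (Ideal.absNorm lam.asIdeal) L c e ∧
      ∀ a, (∀ t, em t (x a) ∉ L.asIdeal) →
        ∏ t, em t (x a) ^ (c t * ((Ideal.absNorm lam.asIdeal ^ e t - 1) / r)) - 1 ∈ L.asIdeal) →
  ∀ᶠ X in atTop, dens P X ≤ C / (r : ℝ) ^ s

/-- PART D5 (characters of bounded order which are trivial on a large set are unramified at `l`).
As `Pool.Agent.H500.R2.S_Cyc` (read its docstring), from `S_TStr`, `S_TPig`, `S_TCB1`, `S_TCB2`,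
`Pool.Agent.H500.HC.S_Deg`: adapt `Pool/Agent/H225/R2/Cyc.lean`.  For `lam` choose a place `L` of `F` with
`L.comap i = lam`.  For each prime `r ∣ m`, with the constant `C` of `S_TCB2`, choose `s` with `C / r^s` small. -/
def S_TCyc : Prop := ∀ (K E F : Type) [Field K] [NumberField K] [Field E] [NumberField E]
  [Field F] [NumberField F] (_ : E →+* F), Fintype.card (K →+* F) = Module.finrank ℚ K →
  ∀ N m : ℕ, 2 ≤ N → 0 < m →
  ∀ V : Set (HeightOneSpectrum (𝓞 K)), V.Infinite → (∀ v ∈ V, (N : 𝓞 K) ∉ v.asIdeal ∧ SpC F v) →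
  ∀ W : HeightOneSpectrum (𝓞 E) → (GK K →* ℂˣ) → Prop,
  (∀ lam θ, W lam θ → IsOpen (θ.ker : Set (GK K)) ∧ (∀ σ, θ σ ^ m = 1) ∧
    UnrOut (N * Ideal.absNorm lam.asIdeal) θ.ker) →
  (∀ v ∈ V, {lam | ∃ θ, W lam θ ∧ ∃ σ, IsFrob v σ ∧ θ σ ≠ 1}.Finite) →
  Tendsto (dens fun lam => ∃ θ, W lam θ ∧ ¬ UnrOut N θ.ker) atTop (𝓝 0)

/-- PART D6 (dihedral residual representations).  As `Pool.Agent.H500.R2.S_Dih`, from `S_TCyc`,
`Pool.Agent.H500.R2.S_FinChar`: adapt the file of `S_Dih` (see `Pool/Agent/H500/R2/All.lean`). -/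
def S_TDih : Prop := ∀ (K E F : Type) [Field K] [NumberField K] [Field E] [NumberField E]
  [Field F] [NumberField F] (_ : E →+* F), Fintype.card (K →+* F) = Module.finrank ℚ K →
  ∀ (N : ℕ) (a : HeightOneSpectrum (𝓞 K) → 𝓞 E),
  2 ≤ N → {v : HeightOneSpectrum (𝓞 K) | (N : 𝓞 K) ∉ v.asIdeal ∧ SpC F v ∧ a v ≠ 0}.Infinite →
  ∀ Λ : HeightOneSpectrum (𝓞 E) → Prop, PosUD Λ →
  (∀ lam, Λ lam → ∃ U : Subgroup (GK K), IsOpen (U : Set (GK K)) ∧ U.index = 2 ∧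
    UnrOut (N * Ideal.absNorm lam.asIdeal) U ∧ ∀ v : HeightOneSpectrum (𝓞 K), (N : 𝓞 K) ∉ v.asIdeal →
      ((Ideal.absNorm lam.asIdeal : ℕ) : 𝓞 K) ∉ v.asIdeal → ∀ σ, IsFrob v σ → σ ∉ U →
      a v ∈ lam.asIdeal) →
  ∃ U : Subgroup (GK K), IsOpen (U : Set (GK K)) ∧ U.index = 2 ∧ UnrOut N U ∧
    ∀ v : HeightOneSpectrum (𝓞 K), (N : 𝓞 K) ∉ v.asIdeal → ∀ σ, IsFrob v σ → σ ∉ U → a v = 0

/-! ## Part E: solvable residual images -/

/-- PART E1.  As `Pool.Agent.H500.SV.S_E2` with an arbitrary number field `F` in `SpC F v`: adapt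
`Pool/Agent/H190/SV/E2.lean` (`S_Spl` is applied to `K`, `F`). -/
def S_TE2 : Prop := ∀ (K E F : Type) [Field K] [NumberField K] [Field E] [NumberField E]
  [Field F] [NumberField F]
  (j : E →+* QBar) (N n B M m0 : ℕ) (P : HeightOneSpectrum (𝓞 K) → (𝓞 E)[X])
  (α : HeightOneSpectrum (𝓞 K) → Fin n → ZBar), 0 < N → 0 < m0 → 0 < M → B.factorial ∣ M →
  (∀ v : HeightOneSpectrum (𝓞 K), (N : 𝓞 K) ∉ v.asIdeal →
    (P v).map (jz j) = ∏ i, (X - Polynomial.C (α v i))) →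
  (∀ v : HeightOneSpectrum (𝓞 K), (N : 𝓞 K) ∉ v.asIdeal → ∀ i i',
    (∃ m : ℕ, 0 < m ∧ α v i ^ m = α v i' ^ m) → α v i ^ m0 = α v i' ^ m0) →
  ∀ Λ : Set (HeightOneSpectrum (𝓞 E)), Λ.Infinite →
  (∀ lam ∈ Λ, ∃ S : SD j N n B P lam, S.Good M m0) →
  {v : HeightOneSpectrum (𝓞 K) | (N : 𝓞 K) ∉ v.asIdeal ∧ SpC F v ∧ NoRU α v}.Infinite

/-- PART E2.  As `Pool.Agent.H500.SV.S_Res`, with a number field `F` containing `E` and the conjugates of the `L`; from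
`S_UM`, `S_E1`, `S_HM`, `S_TCyc`: adapt `Pool/Agent/H860/SV/Res.lean` (`S_Cyc` for `L`, `E` is replaced by `S_TCyc` for
`L`, `E`, `F`). -/
def S_TRes : Prop := ∀ (K E F : Type) [Field K] [NumberField K] [Field E] [NumberField E]
  [Field F] [NumberField F] (_ : E →+* F)
  (j : E →+* QBar) (N n B M : ℕ) (P : HeightOneSpectrum (𝓞 K) → (𝓞 E)[X])
  (α : HeightOneSpectrum (𝓞 K) → Fin n → ZBar), 2 ≤ N → 0 < M → B.factorial ∣ M →
  (∀ v : HeightOneSpectrum (𝓞 K), (N : 𝓞 K) ∉ v.asIdeal →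
    (P v).map (jz j) = ∏ i, (X - Polynomial.C (α v i))) →
  {v : HeightOneSpectrum (𝓞 K) | (N : 𝓞 K) ∉ v.asIdeal ∧ SpC F v ∧ NoRU α v}.Infinite →
  (∀ U : Subgroup (GK K), U.Normal → IsOpen (U : Set (GK K)) → U.index ≤ B * M ^ (n ^ 2) →
    (∃ r, derivedSeries (GK K) r ≤ U) → UnrOut N U →
    ∃ (L : Type) (_ : Field L) (_ : NumberField L) (_ : Algebra K L) (ι : GK L →* GK K),
      Fld U L ι ∧ Fintype.card (L →+* F) = Module.finrank ℚ L) →
  ∀ Λ : HeightOneSpectrum (𝓞 E) → Prop, PosUD Λ → (∀ lam, Λ lam → Nonempty (SD j N n B P lam)) →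
  ∃ U0 : Subgroup (GK K), U0.Normal ∧ IsOpen (U0 : Set (GK K)) ∧ U0.index ≤ B * M ^ (n ^ 2) ∧
    (∃ r, derivedSeries (GK K) r ≤ U0) ∧ UnrOut N U0 ∧
    PosUD fun lam => ∃ S : SD j N n B P lam, ∀ g ∈ U0, S.Z M g

/-- The theorem over `K` for Galois characters (from the assembly of Parts A, B, C; `AbGal` in
`Pool/Agent/H500/R2/Gal.lean`, repeated here). -/
def AbGal {K E : Type} [Field K] [NumberField K] [Field E] [NumberField E] (N n : ℕ)
    (P : HeightOneSpectrum (𝓞 K) → (𝓞 E)[X]) (lam : HeightOneSpectrum (𝓞 E)) : Prop :=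
  ∃ (k : Type) (_ : Field k) (φ : 𝓞 E →+* k) (θ : Fin n → (GK K →* kˣ)),
    RingHom.ker φ = lam.asIdeal ∧ (∀ i, IsOpen ((θ i).ker : Set (GK K))) ∧
    (∀ i, UnrOut (N * Ideal.absNorm lam.asIdeal) (θ i).ker) ∧
    ∀ v : HeightOneSpectrum (𝓞 K), (N : 𝓞 K) ∉ v.asIdeal →
      ((Ideal.absNorm lam.asIdeal : ℕ) : 𝓞 K) ∉ v.asIdeal → ∀ σ, IsFrob v σ →
      (P v).map φ = ∏ i, (X - Polynomial.C (θ i σ : k))

/-- assembled by helper500 -/
def S_TGal : Prop := ∀ (K E : Type) [Field K] [NumberField K] [Field E] [NumberField E]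
  (j : E →+* QBar) (N n : ℕ), 2 ≤ N → ∀ P : HeightOneSpectrum (𝓞 K) → (𝓞 E)[X],
  PosUD (AbGal N n P) →
  ∃ (e : ℕ) (t : Fin n → (K →+* QBar) → ℕ) (ψ : Fin n → (Ideal (𝓞 K) →*₀ ZBar)),
    (∀ i (𝔞 : Ideal (𝓞 K)), 𝔞 ≠ ⊥ → (ψ i 𝔞 ≠ 0 ↔ IsCoprime 𝔞 (Ideal.span {(N : 𝓞 K)}))) ∧
    (∀ i (x : 𝓞 K), InRay (N ^ e) x → ψ i (Ideal.span {x}) = typB (t i) x) ∧
    ∀ v : HeightOneSpectrum (𝓞 K), (N : 𝓞 K) ∉ v.asIdeal →
      (P v).map (jz j) = ∏ i, (X - Polynomial.C (ψ i v.asIdeal))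

/-- PART E3 (the theorem over `L`).  As `Pool.Agent.H500.SV.S_Fin`, from `S_TGal`: adapt
`Pool/Agent/H37/SV/Fin.lean`. -/
def S_TFin : Prop := ∀ (K E L : Type) [Field K] [NumberField K] [Field E] [NumberField E]
  [Field L] [NumberField L] [Algebra K L] (j : E →+* QBar) (N n B M : ℕ)
  (P : HeightOneSpectrum (𝓞 K) → (𝓞 E)[X]) (α : HeightOneSpectrum (𝓞 K) → Fin n → ZBar)
  (U0 : Subgroup (GK K)) (ι : GK L →* GK K), 2 ≤ N → Fld U0 L ι →
  (∀ v : HeightOneSpectrum (𝓞 K), (N : 𝓞 K) ∉ v.asIdeal →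
    (P v).map (jz j) = ∏ i, (X - Polynomial.C (α v i))) →
  (PosUD fun lam => ∃ S : SD j N n B P lam, ∀ g ∈ U0, S.Z M g) →
  ∃ (e : ℕ) (t : Fin n → (L →+* QBar) → ℕ) (ψ : Fin n → (Ideal (𝓞 L) →*₀ ZBar)),
    (∀ i (𝔞 : Ideal (𝓞 L)), 𝔞 ≠ ⊥ → (ψ i 𝔞 ≠ 0 ↔ IsCoprime 𝔞 (Ideal.span {(N : 𝓞 L)}))) ∧
    (∀ i (x : 𝓞 L), InRay (N ^ e) x → ψ i (Ideal.span {x}) = typB (t i) x) ∧
    ∀ (v : HeightOneSpectrum (𝓞 K)) (w : HeightOneSpectrum (𝓞 L)) (f : ℕ),
      (N : 𝓞 K) ∉ v.asIdeal → Above w v →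
      Ideal.absNorm w.asIdeal = Ideal.absNorm v.asIdeal ^ f →
      ∏ i, (X - Polynomial.C (α v i ^ f)) = ∏ i, (X - Polynomial.C (ψ i w.asIdeal))

end Pool.Agent.H500.TH
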