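import Pool.Agent.H500.TH.Sol2
import Pool.Agent.H500.TH.Gal
import Pool.Agent.H500.R2.All
import Pool.Agent.H500.HC.All
import Pool.Agent.H800.TH.TRatio
import Pool.Agent.H784.TH.Div
import Pool.Agent.H401.TH.TDens
import Pool.Agent.H720.TH.BadC
import Pool.Agent.H962.TH.TKD0
import Pool.Agent.H328.TH.TKD
import Pool.Agent.H113.TH.TExp
import Pool.Agent.H385.TH.TChi
import Pool.Agent.H277.TH.TGlue
import Pool.Agent.H382.TH.TStr
import Pool.Agent.H190.TH.TPig
import Pool.Agent.H139.TH.TCB1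
import Pool.Agent.H218.TH.TCB2
import Pool.Agent.H353.TH.TCyc
import Pool.Agent.H685.TH.TDih
import Pool.Agent.H199.TH.TE2
import Pool.Agent.H734.TH.TRes
import Pool.Agent.H894.TH.TFin
import Pool.Agent.H935.SV.SS
import Pool.Agent.H227.SV.Mal
import Pool.Agent.H665.SV.Cho
import Pool.Agent.H967.SV.Fld
import Pool.Agent.H357.SV.HM
import Pool.Agent.H415.SV.Emb
import Pool.Agent.H106.SV.UM
import Pool.Agent.H975.SV.E1
import Pool.Agent.H168.TH.TBad
import Pool.Agent.H115.TH.Plc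
import Pool.Agent.H34.TH.TInt

set_option autoImplicit false
set_option linter.unusedSectionVars false

/-!
# Arbitrary coefficient fields, solvable residual images: all the parts
-/

namespace Pool.Agent.H500.TH

open Pool.Agent.H500.SV Pool.Agent.H500.R2 Pool.Agent.H500.HC

theorem all_SS : S_SS := Pool.Agent.H935.SV.SS.main
theorem all_Mal : S_Mal := Pool.Agent.H227.SV.Mal.main
theorem all_Cho : S_Cho := Pool.Agent.H665.SV.Cho.main
theorem all_Fld : S_Fld := Pool.Agent.H967.SV.Fld.main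
theorem all_HM : S_HM := Pool.Agent.H357.SV.HM.main all_FinChar all_Fld
theorem all_Emb : S_Emb := Pool.Agent.H415.SV.Emb.main
theorem all_UM : S_UM := Pool.Agent.H106.SV.UM.main
theorem all_E1 : S_E1 := Pool.Agent.H975.SV.E1.main

theorem all_TRatio : S_TRatio := Pool.Agent.H800.TH.TRatio.main
theorem all_Div : S_Div := Pool.Agent.H784.TH.Div.main
theorem all_TDens : S_TDens := Pool.Agent.H401.TH.TDens.main all_TRatio all_Div
theorem all_BadC : S_BadC := Pool.Agent.H720.TH.BadC.main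
theorem all_TChi : S_TChi := Pool.Agent.H385.TH.TChi.main
theorem all_TGlue : S_TGlue := Pool.Agent.H277.TH.TGlue.main
theorem all_TPig : S_TPig := Pool.Agent.H190.TH.TPig.main
theorem all_TCB1 : S_TCB1 := Pool.Agent.H139.TH.TCB1.main
theorem all_TCB2 : S_TCB2 := Pool.Agent.H218.TH.TCB2.main

theorem all_TBad : S_TBad := Pool.Agent.H168.TH.TBad.main all_BadC
theorem all_Plc : S_Plc := Pool.Agent.H115.TH.Plc.main
theorem all_TInt : S_TInt := Pool.Agent.H34.TH.TInt.main
theorem all_TExp : S_TExp := Pool.Agent.H113.TH.TExp.main all_Plc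
theorem all_TStr : S_TStr := Pool.Agent.H382.TH.TStr.main all_Plc all_TExp
theorem all_TCyc : S_TCyc :=
  Pool.Agent.H353.TH.TCyc.main all_TStr all_TPig all_TCB1 all_TCB2 all_Deg
theorem all_TDih : S_TDih := Pool.Agent.H685.TH.TDih.main all_TCyc all_FinChar
theorem all_TE2 : S_TE2 := Pool.Agent.H199.TH.TE2.main all_UM all_E1 all_Spl
theorem all_TRes : S_TRes := Pool.Agent.H734.TH.TRes.main all_UM all_E1 all_HM all_TCyc
theorem all_TKD0 : S_TKD0 := Pool.Agent.H962.TH.TKD0.main all_TDens all_TBad all_Indep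
theorem all_TKD : S_TKD := Pool.Agent.H328.TH.TKD.main all_TKD0
theorem all_TGal : S_TGal := gal_of all_TExp all_TKD all_TInt all_TChi all_TGlue
theorem all_TFin : S_TFin := Pool.Agent.H894.TH.TFin.main all_TGal

open NumberField IsDedekindDomain Filter Topology Polynomial
open Pool.Agent.H500.MW (PosUD)

/-- **Residual representations with solvable images** -/
theorem sol {K E : Type} [Field K] [NumberField K] [Field E] [NumberField E]
    (j : E →+* QBar) (N n : ℕ) (hN : 2 ≤ N)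
    (P : HeightOneSpectrum (𝓞 K) → (𝓞 E)[X]) (hP : PosUD (SolRes N n P)) :
    ∃ (L : Type) (_ : Field L) (_ : NumberField L) (_ : Algebra K L) (e : ℕ)
      (t : Fin n → (L →+* QBar) → ℕ) (ψ : Fin n → (Ideal (𝓞 L) →*₀ ZBar)),
      IsGalois K L ∧ Group.IsSolvable (L ≃ₐ[K] L) ∧
      (∀ (v : HeightOneSpectrum (𝓞 K)) (w : HeightOneSpectrum (𝓞 L)),
        (N : 𝓞 K) ∉ v.asIdeal → Above w v →
        ¬ v.asIdeal.map (algebraMap (𝓞 K) (𝓞 L)) ≤ w.asIdeal ^ 2) ∧
      (∀ i (𝔞 : Ideal (𝓞 L)), 𝔞 ≠ ⊥ → (ψ i 𝔞 ≠ 0 ↔ IsCoprime 𝔞 (Ideal.span {(N : 𝓞 L)}))) ∧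
      (∀ i (x : 𝓞 L), InRay (N ^ e) x → ψ i (Ideal.span {x}) = typB (t i) x) ∧
      ∀ (v : HeightOneSpectrum (𝓞 K)) (w : HeightOneSpectrum (𝓞 L)) (f : ℕ) (α : Fin n → ZBar),
        (N : 𝓞 K) ∉ v.asIdeal → Above w v →
        Ideal.absNorm w.asIdeal = Ideal.absNorm v.asIdeal ^ f →
        (P v).map (jz j) = ∏ i, (X - Polynomial.C (α i)) →
        ∏ i, (X - Polynomial.C (α i ^ f)) = ∏ i, (X - Polynomial.C (ψ i w.asIdeal)) :=
  sol_of all_SS all_Mal all_Cho all_HM all_Fld all_Emb all_TE2 all_TRes all_TFin j N n hN P hP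

/-- **Residual representations with solvable images**, with all the data -/
theorem solP {K E : Type} [Field K] [NumberField K] [Field E] [NumberField E]
    (j : E →+* QBar) (N n : ℕ) (hN : 2 ≤ N)
    (P : HeightOneSpectrum (𝓞 K) → (𝓞 E)[X]) (hP : PosUD (SolRes N n P)) :
    ∃ (U : Subgroup (Pool.Agent.W401.Cheb.GK K)) (L : Type) (_ : Field L) (_ : NumberField L)
      (_ : Algebra K L) (ι : Pool.Agent.W401.Cheb.GK L →* Pool.Agent.W401.Cheb.GK K) (e : ℕ)
      (t : Fin n → (L →+* QBar) → ℕ)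
      (ψ : Fin n → (Ideal (𝓞 L) →*₀ ZBar)), Pool.Agent.H500.ZO.PotHecke j N n P U L ι e t ψ :=
  sol_pot all_SS all_Mal all_Cho all_HM all_Fld all_Emb all_TE2 all_TRes all_TFin j N n hN P hP

end Pool.Agent.H500.TH
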