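import Pool.Agent.H500.TH.Stm

set_option autoImplicit false
set_option linter.unusedSectionVars false

/-!
# The local data at a place
-/

namespace Pool.Agent.H500.TH

open NumberField IsDedekindDomain Filter Topology Polynomial
open Pool.Agent.W401.Cheb (dens)
open Pool.Agent.H500.HC
open Pool.Agent.H500.MW (PosUD)

section cop

variable {K E : Type} [Field K] [NumberField K] [Field E] [NumberField E]

theorem cop_of_norm {lam : HeightOneSpectrum (𝓞 E)} {l : ℕ} (hl : l.Prime)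
    (hmem : (l : 𝓞 E) ∈ lam.asIdeal) {x : 𝓞 K}
    (h : ((Ideal.absNorm (Ideal.span {x}) : ℕ) : 𝓞 E) ∉ lam.asIdeal) :
    IsCoprime (Ideal.span {x}) (Ideal.span {(l : 𝓞 K)}) := by
  rw [Ideal.isCoprime_iff_sup_eq]
  by_contra hne
  obtain ⟨M, hM, hle⟩ := Ideal.exists_le_maximal _ hne
  have hlM : (l : 𝓞 K) ∈ M := hle (Ideal.mem_sup_right (Ideal.mem_span_singleton_self _))
  have hM0 : M ≠ ⊥ := by
    rintro rfl
    rw [Ideal.mem_bot] at hlM
    exact hl.ne_zero (by exact_mod_cast hlM)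
  let w : HeightOneSpectrum (𝓞 K) := ⟨M, hM.isPrime, hM0⟩
  have h1 : ((Ideal.absNorm (Ideal.span {x}) : ℕ) : 𝓞 K) ∈ w.asIdeal :=
    hle (Ideal.mem_sup_left (Ideal.absNorm_mem _))
  exact h ((natCast_mem_iff_dvd hl hmem).2 ((natCast_mem_iff_dvd (v := w) hl hlM).1 h1))

theorem norm_span_ne {x : 𝓞 K} (hx : x ≠ 0) : Ideal.absNorm (Ideal.span {x}) ≠ 0 := by
  rw [Ne, Ideal.absNorm_eq_zero_iff, Ideal.span_singleton_eq_bot]
  exact hx

/-- the embeddings of `K` in `F` are those in `QBar` -/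
theorem bij_comp {F : Type} [Field F] [NumberField F]
    (hcard : Fintype.card (K →+* F) = Module.finrank ℚ K) (j : F →+* QBar) :
    Function.Bijective fun σ : K →+* F => j.comp σ := by
  classical
  rw [Fintype.bijective_iff_injective_and_card]
  refine ⟨fun σ τ h => ?_, ?_⟩
  · ext x
    exact j.injective (congrArg (fun f : K →+* QBar => f x) h)
  · rw [hcard, NumberField.Embeddings.card K QBar]

/-- `σ ↦ j ∘ σ` -/
noncomputable def embE {F : Type} [Field F] [NumberField F]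
    (hcard : Fintype.card (K →+* F) = Module.finrank ℚ K) (j : F →+* QBar) :
    (K →+* F) ≃ (K →+* QBar) :=
  Equiv.ofBijective _ (bij_comp hcard j)

theorem perm_ex {F : Type} [Field F] [NumberField F]
    (hcard : Fintype.card (K →+* F) = Module.finrank ℚ K) (j : F →+* QBar) (g : QBar ≃+* QBar) :
    ∃ p : Equiv.Perm (K →+* F), ∀ (σ : K →+* F) (x : K), g (j (σ x)) = j ((p σ) x) := by
  set e := embE (K := K) hcard j
  let q : (K →+* QBar) ≃ (K →+* QBar) :=
    { toFun := fun f => (g : QBar →+* QBar).comp f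
      invFun := fun f => (g.symm : QBar →+* QBar).comp f
      left_inv := fun f => by ext x; simp
      right_inv := fun f => by ext x; simp }
  refine ⟨(e.trans q).trans e.symm, fun σ x => ?_⟩
  have h1 : e (((e.trans q).trans e.symm) σ) = q (e σ) := by simp
  have h2 := congrArg (fun f : K →+* QBar => f x) h1
  exact h2.symm

end cop

section Loc

variable {K E F : Type} [Field K] [NumberField K] [Field E] [NumberField E] [Field F]
  [NumberField F]

/-- The local data at a place `lam` of `E`. -/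
structure TLoc (i : E →+* F) (j : F →+* QBar) (N n : ℕ)
    (α : HeightOneSpectrum (𝓞 K) → Fin n → ZBar) (lam : HeightOneSpectrum (𝓞 E)) where
  k : Type
  [fk : Field k]
  ψ : ZBar →+* k
  l : ℕ
  χ : Fin n → Ideal (𝓞 K) →*₀ k
  a : Fin n → (K →+* F) → ℕ
  hker : RingHom.ker (ψ.comp (jz (j.comp i))) = lam.asIdeal
  hl : l.Prime
  hmem : (l : 𝓞 E) ∈ lam.asIdeal
  hlN : ¬ l ∣ N
  hray : ∀ i, IsRayChar (N * l) (χ i)
  hexp : ∀ i (x : 𝓞 K), InRay N x → IsCoprime (Ideal.span {x}) (Ideal.span {(l : 𝓞 K)}) →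
    χ i (Ideal.span {x}) = ∏ t, ψ (jz j (em t x)) ^ a i t
  hroots : ∀ v : HeightOneSpectrum (𝓞 K), (N : 𝓞 K) ∉ v.asIdeal → (l : 𝓞 K) ∉ v.asIdeal →
    ∃ π : Equiv.Perm (Fin n), ∀ i, ψ (α v (π i)) = χ i v.asIdeal

attribute [instance] TLoc.fk

variable {i : E →+* F} {j : F →+* QBar} {N n : ℕ} {α : HeightOneSpectrum (𝓞 K) → Fin n → ZBar}
  {lam : HeightOneSpectrum (𝓞 E)}

theorem TLoc.mem_iff (L : TLoc i j N n α lam) (x : 𝓞 E) :
    x ∈ lam.asIdeal ↔ L.ψ (jz (j.comp i) x) = 0 := by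
  rw [← L.hker]
  exact RingHom.mem_ker

theorem TLoc.hlk (L : TLoc i j N n α lam) : (L.l : L.k) = 0 := by
  have h1 := (L.mem_iff _).1 L.hmem
  rwa [map_natCast, map_natCast] at h1

theorem TLoc.not_mem (L : TLoc i j N n α lam) {v : HeightOneSpectrum (𝓞 K)}
    (h : ((Ideal.absNorm v.asIdeal : ℕ) : 𝓞 E) ∉ lam.asIdeal) : (L.l : 𝓞 K) ∉ v.asIdeal := by
  intro h1
  apply h
  exact (natCast_mem_iff_dvd L.hl L.hmem).2 ((natCast_mem_iff_dvd L.hl h1).1 (norm_mem v))

/-- the place given by a reduction of `ZBar` -/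
theorem place_of (j : F →+* QBar) {k : Type} [Field k] (ψ : ZBar →+* k) {l : ℕ} (hl : l.Prime)
    (hlk : (l : k) = 0) : ∃ L : HeightOneSpectrum (𝓞 F), RingHom.ker (ψ.comp (jz j)) = L.asIdeal ∧
      (l : 𝓞 F) ∈ L.asIdeal := by
  have hm : (l : 𝓞 F) ∈ RingHom.ker (ψ.comp (jz j)) := by
    rw [RingHom.mem_ker, map_natCast, hlk]
  refine ⟨⟨RingHom.ker (ψ.comp (jz j)), RingHom.ker_isPrime _, ?_⟩, rfl, hm⟩
  intro h0
  rw [h0, Ideal.mem_bot] at hm
  exact hl.ne_zero (by exact_mod_cast hm)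

/-- the local data exist -/
theorem exists_tloc (hExp : S_TExp) (hcard : Fintype.card (K →+* F) = Module.finrank ℚ K)
    (i : E →+* F) (j : F →+* QBar) (N n : ℕ) (hN : 0 < N)
    (P : HeightOneSpectrum (𝓞 K) → (𝓞 E)[X]) (α : HeightOneSpectrum (𝓞 K) → Fin n → ZBar)
    (hα : ∀ v : HeightOneSpectrum (𝓞 K), (N : 𝓞 K) ∉ v.asIdeal →
      (P v).map (jz (j.comp i)) = ∏ i, (X - Polynomial.C (α v i))) :
    ∃ B : ℕ, ∀ lam : HeightOneSpectrum (𝓞 E), AbRes N n P lam →
      (Ideal.absNorm lam.asIdeal).Prime → B < Ideal.absNorm lam.asIdeal →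
      Nonempty (TLoc i j N n α lam) := by
  classical
  obtain ⟨B, hB⟩ := hExp K F hcard
  refine ⟨max B N, ?_⟩
  rintro lam ⟨k, _, φ, l, χ, hφ, hl, hlm, hray, hP⟩ hprime hlarge
  have hle : Ideal.absNorm lam.asIdeal = l := prime_eq hprime hl (norm_mem lam) hlm
  have hlB : B < l := by
    rw [← hle]
    exact lt_of_le_of_lt (le_max_left _ _) hlarge
  have hlN' : N < l := by
    rw [← hle]
    exact lt_of_le_of_lt (le_max_right _ _) hlarge
  have hlN : ¬ l ∣ N := fun h => absurd (Nat.le_of_dvd hN h) (not_le.2 hlN')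
  set kb := AlgebraicClosure k with hkb
  set ι : k →+* kb := algebraMap k kb with hι
  obtain ⟨ψ, hψ⟩ := Pool.Agent.Y800.extend (j.comp i) (ι.comp φ)
  have hψ' : ψ.comp (jz (j.comp i)) = ι.comp φ := RingHom.ext hψ
  have hkerE : RingHom.ker (ψ.comp (jz (j.comp i))) = lam.asIdeal := by
    rw [hψ', ← hφ]
    ext x
    rw [RingHom.mem_ker, RingHom.mem_ker, RingHom.comp_apply]
    exact map_eq_zero_iff ι ι.injective
  have hlk : (l : kb) = 0 := by
    have h1 : (l : 𝓞 E) ∈ RingHom.ker (ψ.comp (jz (j.comp i))) := by rw [hkerE]; exact hlm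
    rw [RingHom.mem_ker, map_natCast] at h1
    exact h1
  obtain ⟨L, hL, hLl⟩ := place_of j ψ hl hlk
  have hray' : ∀ a, IsRayChar (N * l) (ι.toMonoidWithZeroHom.comp (χ a)) := by
    intro a
    refine ⟨fun 𝔞 h𝔞 => ?_, fun x hx => ?_⟩
    · rw [← (hray a).supp 𝔞 h𝔞]
      show ι (χ a 𝔞) ≠ 0 ↔ _
      rw [Ne, map_eq_zero_iff ι ι.injective]
    · show ι (χ a _) = 1
      rw [(hray a).ray x hx, map_one]
  have h1 := fun a => hB L l hl hLl hlB N hN hlN kb (ψ.comp (jz j)) hL _ (hray' a)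
  choose a _ ha using h1
  refine ⟨⟨kb, ψ, l, fun a => ι.toMonoidWithZeroHom.comp (χ a), a, hkerE, hl, hlm, hlN, hray',
    fun b x hx hc => ?_, ?_⟩⟩
  · rw [ha b x hx hc]
    rfl
  · intro v hvN hvl
    have h2 := hP v hvN hvl
    have h3 := congrArg (Polynomial.map ι) h2
    rw [Polynomial.map_map, ← hψ', ← Polynomial.map_map, hα v hvN, Polynomial.map_prod,
      Polynomial.map_prod] at h3
    simp only [Polynomial.map_sub, Polynomial.map_X, Polynomial.map_C] at h3
    have h4 : Finset.univ.val.map (fun i => ι (χ i v.asIdeal)) =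
        Finset.univ.val.map (fun i => ψ (α v i)) := by
      have h5 := congrArg Polynomial.roots h3
      have e1 : ∏ i, (X - Polynomial.C (ψ (α v i))) =
          ((Finset.univ.val.map fun i => ψ (α v i)).map fun a => X - Polynomial.C a).prod := by
        rw [Multiset.map_map]
        rfl
      have e2 : ∏ i, (X - Polynomial.C (ι (χ i v.asIdeal))) =
          ((Finset.univ.val.map fun i => ι (χ i v.asIdeal)).map
            fun a => X - Polynomial.C a).prod := by
        rw [Multiset.map_map]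
        rfl
      rw [e1, e2, roots_multiset_prod_X_sub_C, roots_multiset_prod_X_sub_C] at h5
      exact h5.symm
    obtain ⟨π, hπ⟩ := Pool.Agent.H500.MW.exists_equiv (fun i => ι (χ i v.asIdeal))
      (fun i => ψ (α v i)) h4
    exact ⟨π, hπ⟩

/-- the data at the place of `F` -/
theorem TLoc.toG (D : TLoc i j N n α lam) : ∃ (L : HeightOneSpectrum (𝓞 F)) (G : GLoc j N n α L),
    L.asIdeal.comap (RingOfIntegers.mapRingHom i) = lam.asIdeal := by
  obtain ⟨L, hL, hLl⟩ := place_of j D.ψ D.hl D.hlk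
  refine ⟨L, ⟨D.k, D.ψ, D.l, D.χ, hL, D.hl, hLl, D.hlN, D.hray, D.hroots⟩, ?_⟩
  rw [← D.hker, ← hL]
  rfl

end Loc

end Pool.Agent.H500.TH
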