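import Pool.Agent.H500.TH.Typ
import Pool.Agent.H500.HC.Main
import Pool.Agent.H500.SV.Stm

set_option autoImplicit false
set_option linter.unusedSectionVars false

/-!
# Families which are abelian modulo many places: the assembly, arbitrary coefficients
-/

namespace Pool.Agent.H500.TH

open NumberField IsDedekindDomain Filter Topology Polynomial
open Pool.Agent.W401.Cheb (dens)
open Pool.Agent.H500.HC
open Pool.Agent.H500.MW (PosUD dens_exists)

section

variable {K E F : Type} [Field K] [NumberField K] [Field E] [NumberField E] [Field F]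
  [NumberField F]

theorem jz_comp (i : E →+* F) (j : F →+* QBar) :
    jz (j.comp i) = (jz j).comp (RingOfIntegers.mapRingHom i) := RingHom.ext fun _ => rfl

/-- the embeddings: `typ` and `typB` -/
theorem typB_eq (hcard : Fintype.card (K →+* F) = Module.finrank ℚ K) (j : F →+* QBar)
    (t : (K →+* F) → ℕ) (x : 𝓞 K) :
    typB (fun σ => t ((embE hcard j).symm σ)) x = jz j (typ t x) := by
  classical
  unfold typB typ
  rw [map_prod]
  refine (Fintype.prod_equiv (embE hcard j) _ _ fun σ => ?_).symm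
  show _ = _ ^ t ((embE hcard j).symm ((embE hcard j) σ))
  rw [Equiv.symm_apply_apply, map_pow]
  rfl

/-- a family of places of `F` above infinitely many places of `E` is infinite -/
theorem inf_above (i : E →+* F) {Q : HeightOneSpectrum (𝓞 F) → Prop}
    {S : Set (HeightOneSpectrum (𝓞 E))} (hS : S.Infinite)
    (h : ∀ lam ∈ S, ∃ L : HeightOneSpectrum (𝓞 F), Q L ∧
      L.asIdeal.comap (RingOfIntegers.mapRingHom i) = lam.asIdeal) : {L | Q L}.Infinite := by
  classical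
  have h' : ∀ lam : HeightOneSpectrum (𝓞 E), ∃ L : HeightOneSpectrum (𝓞 F), lam ∈ S → Q L ∧
      L.asIdeal.comap (RingOfIntegers.mapRingHom i) = lam.asIdeal := by
    intro lam
    by_cases hl : lam ∈ S
    · obtain ⟨L, hL⟩ := h lam hl
      exact ⟨L, fun _ => hL⟩
    · obtain ⟨lam0, hlam0⟩ := hS.nonempty
      obtain ⟨L, -⟩ := h lam0 hlam0
      exact ⟨L, fun h0 => absurd h0 hl⟩
  choose g hg using h'
  have hinj : Set.InjOn g S := by
    intro a ha b hb hab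
    have h1 := (hg a ha).2
    have h2 := (hg b hb).2
    rw [hab] at h1
    exact HeightOneSpectrum.ext (h1.symm.trans h2)
  exact (hS.image hinj).mono (by
    rintro _ ⟨lam, hlam, rfl⟩
    exact (hg lam hlam).1)

/-- **Families which are abelian modulo many places come from Hecke characters**, for a number field
`F` containing `E` and the conjugates of `K`. -/
theorem main_F (hExp : S_TExp) (hKD : S_TKD) (hSplit : S_Split) (hCls : S_Cls) (hInt : S_TInt)
    (hChi : S_TChi) (hGlue : S_TGlue) (hDeg : S_Deg)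
    (hcard : Fintype.card (K →+* F) = Module.finrank ℚ K) (i0 : E →+* F) (j : F →+* QBar)
    (N n : ℕ) (hN : 0 < N)
    (P : HeightOneSpectrum (𝓞 K) → (𝓞 E)[X]) (hP : PosUD (AbRes N n P)) :
    ∃ (t : Fin n → (K →+* F) → ℕ) (ψ : Fin n → (Ideal (𝓞 K) →*₀ ZBar)),
      (∀ i (𝔞 : Ideal (𝓞 K)), 𝔞 ≠ ⊥ → (ψ i 𝔞 ≠ 0 ↔ IsCoprime 𝔞 (Ideal.span {(N : 𝓞 K)}))) ∧
      (∀ i (x : 𝓞 K), InRay N x → ψ i (Ideal.span {x}) = jz j (typ (t i) x)) ∧
      ∀ v : HeightOneSpectrum (𝓞 K), (N : 𝓞 K) ∉ v.asIdeal →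
        (P v).map (jz (j.comp i0)) = ∏ i, (X - Polynomial.C (ψ i v.asIdeal)) := by
  classical
  have hmon := monic_of N n P hP.infinite
  have hex : ∀ v : HeightOneSpectrum (𝓞 K), ∃ α : Fin n → ZBar, (N : 𝓞 K) ∉ v.asIdeal →
      (P v).map (jz (j.comp i0)) = ∏ i, (X - Polynomial.C (α i)) := by
    intro v
    by_cases hv : (N : 𝓞 K) ∉ v.asIdeal
    · obtain ⟨α, hα⟩ := exists_alpha (j.comp i0) (hmon v hv).1 (hmon v hv).2
      exact ⟨α, fun _ => hα⟩
    · exact ⟨0, fun h => absurd h hv⟩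
  choose α hα using hex
  obtain ⟨B, hB⟩ := exists_tloc hExp hcard i0 j N n hN P α hα
  set Λ : HeightOneSpectrum (𝓞 E) → Prop := fun lam => (AbRes N n P lam ∧
    ¬ ¬ (Ideal.absNorm lam.asIdeal).Prime) ∧ ¬ Ideal.absNorm lam.asIdeal ≤ B with hΛdef
  have hΛ : PosUD Λ := (hP.diff (hDeg E)).diff
    (Pool.Agent.H500.Kum.dens_fin _ (Pool.Agent.W352.ChAbs.finite_le (K := E) B))
  have hloc : ∀ lam, Λ lam → Nonempty (TLoc i0 j N n α lam) := fun lam h =>
    hB lam h.1.1 (not_not.1 h.1.2) (not_le.1 h.2)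
  -- the family over `F`
  set PF : HeightOneSpectrum (𝓞 K) → (𝓞 F)[X] := fun v =>
    (P v).map (RingOfIntegers.mapRingHom i0) with hPF
  have hαF : ∀ v : HeightOneSpectrum (𝓞 K), (N : 𝓞 K) ∉ v.asIdeal →
      (PF v).map (jz j) = ∏ i, (X - Polynomial.C (α v i)) := by
    intro v hv
    rw [hPF]
    simp only
    rw [Polynomial.map_map, ← jz_comp]
    exact hα v hv
  have hinf : {L : HeightOneSpectrum (𝓞 F) | Nonempty (GLoc j N n α L)}.Infinite := by
    refine inf_above i0 hΛ.infinite fun lam hlam => ?_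
    obtain ⟨D⟩ := hloc lam hlam
    obtain ⟨L, G, hL⟩ := D.toG
    exact ⟨L, ⟨G⟩, hL⟩
  have hα0 : ∀ v : HeightOneSpectrum (𝓞 K), (N : 𝓞 K) ∉ v.asIdeal → ∀ i, α v i ≠ 0 := by
    intro v hv i
    obtain ⟨lam, hlam, hnl⟩ := (hΛ.diff (Pool.Agent.H500.Kum.dens_fin _
      (Pool.Agent.H500.Kum.fin_mem (E := E) (x := ((Ideal.absNorm v.asIdeal : ℕ) : 𝓞 E))
      (Nat.cast_ne_zero.2 (norm_ne_zero v))))).nonempty
    obtain ⟨L⟩ := hloc lam hlam
    have hlv := L.not_mem hnl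
    obtain ⟨π, hπ⟩ := L.hroots v hv hlv
    have h1 := hπ (π.symm i)
    rw [Equiv.apply_symm_apply] at h1
    intro h0
    rw [h0, map_zero] at h1
    refine ((L.hray (π.symm i)).supp v.asIdeal v.ne_bot).2 ?_ h1.symm
    refine coprime_of_not_mem ?_
    rw [Nat.cast_mul]
    intro h2
    rcases v.isPrime.mem_or_mem h2 with h3 | h3
    · exact hv h3
    · exact hlv h3
  obtain ⟨h, R, hh, hR, hcl⟩ := hCls K N hN
  have hcl' : ∀ v : HeightOneSpectrum (𝓞 K), (N : 𝓞 K) ∉ v.asIdeal →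
      ∃ x : 𝓞 K, InRay N x ∧ v.asIdeal ^ h = Ideal.span {x} := fun v hv =>
    (hcl v.asIdeal v.ne_bot (coprime_of_not_mem hv)).1
  obtain ⟨tq, htq⟩ := types hKD hSplit hcard i0 j hN hα0 hΛ hloc hh hcl'
  have hint := hInt K F hcard j N n h hN hh PF α hαF hinf tq htq
  choose t ht using hint
  have htN : TypN j N n h α t := by
    intro v hv
    obtain ⟨π, hπ⟩ := htq v hv
    refine ⟨π, fun i x hx hvx => ?_⟩
    obtain ⟨m, c, hm, hc, h1⟩ := hπ i x hx hvx
    refine ⟨m, hm, ?_⟩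
    apply zq_inj
    rw [map_pow, h1, map_pow]
    have h2 : algebraMap ZBar QBar (jz j (typ (t i) x)) =
        ∏ σ, j ((em σ x : 𝓞 F) : F) ^ t i σ := by
      have h3 : algebraMap ZBar QBar (jz j (typ (t i) x)) = j ((typ (t i) x : 𝓞 F) : F) := rfl
      rw [h3]
      have h4 : j ((typ (t i) x : 𝓞 F) : F) = (j.comp (algebraMap (𝓞 F) F)) (typ (t i) x) := rfl
      rw [h4]
      unfold typ
      rw [map_prod]
      refine Finset.prod_congr rfl fun σ _ => ?_
      rw [map_pow]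
      rfl
    rw [h2, ← Finset.prod_pow]
    refine Finset.prod_congr rfl fun σ _ => ?_
    have h4 : c σ = ((t i σ * m : ℕ) : ℤ) := by
      have h5 : (c σ : ℚ) = ((t i σ * m : ℕ) : ℚ) := by
        rw [hc σ, ht i σ]
        push_cast
        ring
      exact_mod_cast h5
    rw [h4, zpow_natCast, pow_mul]
  obtain ⟨B2, hB2⟩ := hChi K F hcard j N n h hN hh PF α hαF hinf t htN
  obtain ⟨ψ, hψ1, hψ2, hψ3⟩ := hGlue K F j N n h R hN hh hR hcl PF α hαF t (by
    refine inf_above i0 (inf_large hΛ.infinite (B2 + 1)) fun lam hlam => ?_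
    obtain ⟨hlam1, hlam2⟩ := hlam
    obtain ⟨D⟩ := hloc lam hlam1
    obtain ⟨L, hL, hLl⟩ := place_of j D.ψ D.hl D.hlk
    set G : GLoc j N n α L :=
      ⟨D.k, D.ψ, D.l, D.χ, hL, D.hl, hLl, D.hlN, D.hray, D.hroots⟩ with hG
    have hl2 : Ideal.absNorm lam.asIdeal = D.l :=
      prime_eq (not_not.1 hlam1.1.2) D.hl (norm_mem lam) D.hmem
    have hlarge : B2 < G.l := by
      show B2 < D.l
      rw [← hl2]
      omega
    obtain ⟨π, hπ⟩ := hB2 L G hlarge
    refine ⟨L, ⟨⟨D.k, D.ψ, D.l, fun i => D.χ (π.symm i), hL, D.hl, hLl,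
      fun i => D.hray _, fun i x hx hc => ?_, fun v hv hlv => ?_⟩⟩, ?_⟩
    · have h3 := hπ (π.symm i) x hx hc
      rw [Equiv.apply_symm_apply] at h3
      exact h3
    · obtain ⟨π', hπ'⟩ := D.hroots v hv hlv
      exact ⟨π.symm.trans π', fun i => hπ' (π.symm i)⟩
    · rw [← D.hker, ← hL]
      rfl)
  refine ⟨t, ψ, hψ1, hψ2, fun v hv => ?_⟩
  rw [← hψ3 v hv, hPF]
  simp only
  rw [Polynomial.map_map, ← jz_comp]

/-- **Families which are abelian modulo many places come from Hecke characters.** -/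
theorem main_of (hExp : S_TExp) (hKD : S_TKD) (hSplit : S_Split) (hCls : S_Cls) (hInt : S_TInt)
    (hChi : S_TChi) (hGlue : S_TGlue) (hDeg : S_Deg) (hEmb : Pool.Agent.H500.SV.S_Emb)
    (j : E →+* QBar) (N n : ℕ) (hN : 0 < N)
    (P : HeightOneSpectrum (𝓞 K) → (𝓞 E)[X]) (hP : PosUD (AbRes N n P)) :
    ∃ (t : Fin n → (K →+* QBar) → ℕ) (ψ : Fin n → (Ideal (𝓞 K) →*₀ ZBar)),
      (∀ i (𝔞 : Ideal (𝓞 K)), 𝔞 ≠ ⊥ → (ψ i 𝔞 ≠ 0 ↔ IsCoprime 𝔞 (Ideal.span {(N : 𝓞 K)}))) ∧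
      (∀ i (x : 𝓞 K), InRay N x → ψ i (Ideal.span {x}) = typB (t i) x) ∧
      ∀ v : HeightOneSpectrum (𝓞 K), (N : 𝓞 K) ∉ v.asIdeal →
        (P v).map (jz j) = ∏ i, (X - Polynomial.C (ψ i v.asIdeal)) := by
  obtain ⟨F, _, _, i0, j', hj, hc⟩ := hEmb E j 1 (fun _ => K)
  obtain ⟨t, ψ, h1, h2, h3⟩ := main_F hExp hKD hSplit hCls hInt hChi hGlue hDeg (hc 0) i0 j' N n hN
    P hP
  refine ⟨fun i σ => t i ((embE (hc 0) j').symm σ), ψ, h1, fun i x hx => ?_, fun v hv => ?_⟩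
  · rw [h2 i x hx, typB_eq]
  · rw [← h3 v hv, hj]

end

end Pool.Agent.H500.TH
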