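import Pool.Agent.H500.TH.Sol1
import Pool.Agent.H500.ZO.Stm

set_option autoImplicit false
set_option linter.unusedSectionVars false

/-!
# Solvable residual images: the assembly
-/

namespace Pool.Agent.H500.TH

open NumberField IsDedekindDomain Filter Topology Polynomial
open Pool.Agent.W401.Cheb (GK IsFrob IsInert dens)
open Pool.Agent.H500.HC
open Pool.Agent.H500.MW (PosUD dens_exists posUD_of_not)
open Pool.Agent.H500.R2 (UnrOut SpC fin_range frob_at)
open Pool.Agent.H500.SV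

section

variable {K E : Type} [Field K] [NumberField K] [Field E] [NumberField E]

/-- quotients of the roots which are roots of unity have bounded order -/
theorem exists_m0 (j : E →+* QBar) (N n : ℕ) (P : HeightOneSpectrum (𝓞 K) → (𝓞 E)[X])
    (hmon : ∀ v : HeightOneSpectrum (𝓞 K), (N : 𝓞 K) ∉ v.asIdeal →
      (P v).Monic ∧ (P v).natDegree = n)
    (α : HeightOneSpectrum (𝓞 K) → Fin n → ZBar)
    (hα : ∀ v : HeightOneSpectrum (𝓞 K), (N : 𝓞 K) ∉ v.asIdeal →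
      (P v).map (jz j) = ∏ i, (X - Polynomial.C (α v i))) :
    ∃ m0 : ℕ, 0 < m0 ∧ ∀ v : HeightOneSpectrum (𝓞 K), (N : 𝓞 K) ∉ v.asIdeal → ∀ i i',
      (∃ m : ℕ, 0 < m ∧ α v i ^ m = α v i' ^ m) → α v i ^ m0 = α v i' ^ m0 := by
  classical
  refine ⟨(2 * (n * (n * Module.finrank ℚ E))).factorial, Nat.factorial_pos _, ?_⟩
  rintro v hv i i' ⟨m, hm, h⟩
  have hz : ∀ i, (((P v).map (algebraMap (𝓞 E) E)).map j).eval (algebraMap ZBar QBar (α v i)) = 0 := by
    intro i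
    have e1 : ((P v).map (algebraMap (𝓞 E) E)).map j =
        ((P v).map (jz j)).map (algebraMap ZBar QBar) := by
      rw [Polynomial.map_map, Polynomial.map_map]
      rfl
    rw [e1, hα v hv, Polynomial.map_prod, eval_prod]
    exact Finset.prod_eq_zero (Finset.mem_univ i) (by simp)
  have hf0 : (P v).map (algebraMap (𝓞 E) E) ≠ 0 := ((hmon v hv).1.map _).ne_zero
  have hdeg : ((P v).map (algebraMap (𝓞 E) E)).natDegree = n := by
    rw [(hmon v hv).1.natDegree_map, (hmon v hv).2]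
  have hd := deg_quot j _ hf0 (hz i') (hz i)
  rw [hdeg] at hd
  by_cases h0 : α v i' = 0
  · have h1 : α v i ^ m = 0 := by rw [h, h0, zero_pow hm.ne']
    rw [h0, pow_eq_zero_iff hm.ne'] at *
    rw [h1]
  · have h0' : algebraMap ZBar QBar (α v i') ≠ 0 := fun h2 => h0 (zq_inj (h2.trans (map_zero _).symm))
    have h1 : (algebraMap ZBar QBar (α v i) / algebraMap ZBar QBar (α v i')) ^ m = 1 := by
      rw [div_pow, ← map_pow, ← map_pow, h, div_self]
      rw [map_pow]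
      exact pow_ne_zero _ h0'
    have h2 := Pool.Agent.H500.MW.order_dvd hd hm h1
    rw [div_pow, div_eq_one_iff_eq (pow_ne_zero _ h0'), ← map_pow, ← map_pow] at h2
    exact zq_inj h2

theorem PosUD.exists {P : HeightOneSpectrum (𝓞 E) → Prop} {I : Type} [Fintype I]
    (Q : I → HeightOneSpectrum (𝓞 E) → Prop) (h : PosUD P) (hPQ : ∀ v, P v → ∃ a, Q a v) :
    ∃ a, PosUD (Q a) := by
  classical
  by_contra hcon
  push Not at hcon
  have h1 : ∀ a, Tendsto (dens (Q a)) atTop (𝓝 0) := by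
    intro a
    by_contra h1
    exact hcon a (posUD_of_not h1)
  obtain ⟨v, hv, hv2⟩ := (h.diff (dens_exists Q h1)).nonempty
  exact hv2 (hPQ v hv)

/-- the choice of the exponent -/
theorem exists_good {j : E →+* QBar} {N n B : ℕ} {P : HeightOneSpectrum (𝓞 K) → (𝓞 E)[X]}
    {lam : HeightOneSpectrum (𝓞 E)} (m0 : ℕ) (M : Fin (n ^ 2 + 1) → ℕ)
    (hM : ∀ (k H : Type) [Field k] [Group H] (χ : Fin n → (H →* kˣ)), ∃ t, ∀ i i',
      (∀ h, χ i h ^ M t = χ i' h ^ M t) ∨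
      ∀ s : ℕ, 0 < s → s ≤ n ^ 2 → ∃ h, χ i h ^ (M t * m0 * s) ≠ χ i' h ^ (M t * m0 * s))
    (S : SD j N n B P lam) : ∃ t, S.Good (M t) m0 := by
  classical
  have hd : ∀ u : S.U, (S.ρ u : Matrix (Fin n) (Fin n) S.k) =
      Matrix.diagonal fun i => (S.ρ u : Matrix (Fin n) (Fin n) S.k) i i := fun u =>
    ((S.hdiag u u.2).diagonal_diag).symm
  have hmul : ∀ (u u' : S.U) (i : Fin n), (S.ρ (u * u' : S.U) : Matrix (Fin n) (Fin n) S.k) i i =
      (S.ρ u : Matrix (Fin n) (Fin n) S.k) i i * (S.ρ u' : Matrix (Fin n) (Fin n) S.k) i i := by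
    intro u u' i
    have h1 : (S.ρ (u * u' : S.U) : Matrix (Fin n) (Fin n) S.k) =
        (S.ρ u : Matrix (Fin n) (Fin n) S.k) * (S.ρ u' : Matrix (Fin n) (Fin n) S.k) := by
      rw [Subgroup.coe_mul, map_mul]
      rfl
    rw [h1, hd u, hd u', Matrix.diagonal_mul_diagonal, Matrix.diagonal_apply_eq,
      Matrix.diagonal_apply_eq, Matrix.diagonal_apply_eq]
  have hone : ∀ i : Fin n, (S.ρ (1 : S.U) : Matrix (Fin n) (Fin n) S.k) i i = 1 := by
    intro i
    rw [Subgroup.coe_one, map_one]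
    simp
  let χ0 : Fin n → (S.U →* S.k) := fun i =>
    { toFun := fun u => (S.ρ u : Matrix (Fin n) (Fin n) S.k) i i
      map_one' := hone i
      map_mul' := fun u u' => hmul u u' i }
  obtain ⟨t, ht⟩ := hM S.k S.U fun i => (χ0 i).toHomUnits
  refine ⟨t, fun i i' => ?_⟩
  rcases ht i i' with h | h
  · left
    intro u hu
    have h1 := congrArg Units.val (h ⟨u, hu⟩)
    exact h1
  · right
    intro s hs hs2
    obtain ⟨u, hu⟩ := h s hs hs2
    refine ⟨u, u.2, fun h1 => hu (Units.ext ?_)⟩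
    exact h1

/-- **Residual representations with solvable images** -/
theorem sol_pot (hSS : S_SS) (hMal : S_Mal) (hCho : S_Cho) (hHM : S_HM) (hFld : S_Fld)
    (hEmb : S_Emb) (hE2 : S_TE2) (hRes : S_TRes) (hFin : S_TFin)
    (j : E →+* QBar) (N n : ℕ) (hN : 2 ≤ N)
    (P : HeightOneSpectrum (𝓞 K) → (𝓞 E)[X]) (hP : PosUD (SolRes N n P)) :
    ∃ (U : Subgroup (GK K)) (L : Type) (_ : Field L) (_ : NumberField L) (_ : Algebra K L)
      (ι : GK L →* GK K) (e : ℕ) (t : Fin n → (L →+* QBar) → ℕ)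
      (ψ : Fin n → (Ideal (𝓞 L) →*₀ ZBar)), Pool.Agent.H500.ZO.PotHecke j N n P U L ι e t ψ := by
  classical
  have hmon := monic_sol N n P hP.infinite
  have hex : ∀ v : HeightOneSpectrum (𝓞 K), ∃ α : Fin n → ZBar, (N : 𝓞 K) ∉ v.asIdeal →
      (P v).map (jz j) = ∏ i, (X - Polynomial.C (α i)) := by
    intro v
    by_cases hv : (N : 𝓞 K) ∉ v.asIdeal
    · obtain ⟨α, hα⟩ := exists_alpha j (hmon v hv).1 (hmon v hv).2
      exact ⟨α, fun _ => hα⟩
    · exact ⟨0, fun h => absurd h hv⟩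
  choose α hα using hex
  obtain ⟨m0, hm0, hm⟩ := exists_m0 j N n P hmon α hα
  obtain ⟨β, hβ⟩ := exists_sd (K := K) hSS hMal j N n
  obtain ⟨M, hM1, hM2⟩ := hCho n β m0 hm0
  -- a good exponent
  obtain ⟨t, ht⟩ := PosUD.exists (I := Fin (n ^ 2 + 1))
    (fun t lam => ∃ S : SD j N n β P lam, S.Good (M t) m0) hP (fun lam hlam => by
      obtain ⟨S⟩ := hβ P lam hlam
      obtain ⟨t, ht⟩ := exists_good m0 M hM2 S
      exact ⟨t, S, ht⟩)
  obtain ⟨hMpos, hMdvd⟩ := hM1 t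
  set D := β * M t ^ (n ^ 2) with hD
  -- the fields
  have hfin := hHM K N D hN
  set 𝒰 := {U : Subgroup (GK K) | U.Normal ∧ IsOpen (U : Set (GK K)) ∧ U.index ≤ D ∧
    (∃ r, derivedSeries (GK K) r ≤ U) ∧ UnrOut N U} with h𝒰
  have hfint : Finite 𝒰 := hfin
  obtain ⟨r, ⟨eU⟩⟩ := Finite.exists_equiv_fin 𝒰
  choose L f1 f2 f3 ι hι using fun a : Fin r => hFld K (eU.symm a).1 (eU.symm a).2.1
    (eU.symm a).2.2.1
  obtain ⟨F, _, _, i0, j', hj, hc⟩ := hEmb E j r L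
  have hinfv := hE2 K E F j N n β (M t) m0 P α (by omega) hm0 hMpos hMdvd hα hm _ ht.infinite
    (fun lam hlam => hlam)
  obtain ⟨U0, hUn, hUo, hUi, hUd, hUu, hU⟩ := hRes K E F i0 j N n β (M t) P α hN hMpos hMdvd hα
    hinfv (fun U h1 h2 h3 h4 h5 => by
      have hmem : U ∈ 𝒰 := ⟨h1, h2, h3, h4, h5⟩
      have h6 : (eU.symm (eU ⟨U, hmem⟩)).1 = U := by rw [Equiv.symm_apply_apply]
      refine ⟨L (eU ⟨U, hmem⟩), f1 _, f2 _, f3 _, ι _, ?_, hc _⟩
      have h7 := hι (eU ⟨U, hmem⟩)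
      rw [h6] at h7
      exact h7) _ ht (fun lam ⟨S, _⟩ => ⟨S⟩)
  obtain ⟨L0, _, _, _, ι0, hL0⟩ := hFld K U0 hUn hUo
  obtain ⟨e, t', ψ, h1, h2, h3⟩ := hFin K E L0 j N n β (M t) P α U0 ι0 hN hL0 hα hU
  refine ⟨U0, L0, inferInstance, inferInstance, inferInstance, ι0, e, t', ψ,
    { normal := hUn, isOpen := hUo, solv := hUd, unr := hUu, fld := hL0, monic := hmon, cop := h1,
      typ := h2, eq := ?_ }⟩
  intro v w f α' hv hw hf hα'
  rw [← h3 v w f hv hw hf]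
  -- the roots are unique
  have h4 : ∏ i, (X - Polynomial.C (α v i)) = ∏ i, (X - Polynomial.C (α' i)) := by
    rw [← hα v hv, hα']
  have h5 : Finset.univ.val.map (α v) = Finset.univ.val.map α' := by
    have h6 := congrArg Polynomial.roots h4
    have e1 : ∀ β : Fin n → ZBar, ∏ i, (X - Polynomial.C (β i)) =
        ((Finset.univ.val.map β).map fun a => X - Polynomial.C a).prod := by
      intro β
      rw [Multiset.map_map]
      rfl
    rw [e1, e1, roots_multiset_prod_X_sub_C, roots_multiset_prod_X_sub_C] at h6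
    exact h6
  have h6 : Finset.univ.val.map (fun i => X - Polynomial.C (α v i ^ f)) =
      Finset.univ.val.map (fun i => X - Polynomial.C (α' i ^ f)) := by
    have := congrArg (Multiset.map fun a : ZBar => (X - Polynomial.C (a ^ f) : ZBar[X])) h5
    rwa [Multiset.map_map, Multiset.map_map] at this
  exact (congrArg Multiset.prod h6).symm

/-- **Residual representations with solvable images** -/
theorem sol_of (hSS : S_SS) (hMal : S_Mal) (hCho : S_Cho) (hHM : S_HM) (hFld : S_Fld)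
    (hEmb : S_Emb) (hE2 : S_TE2) (hRes : S_TRes) (hFin : S_TFin)
    (j : E →+* QBar) (N n : ℕ) (hN : 2 ≤ N)
    (P : HeightOneSpectrum (𝓞 K) → (𝓞 E)[X]) (hP : PosUD (SolRes N n P)) :
    ∃ (L : Type) (_ : Field L) (_ : NumberField L) (_ : Algebra K L) (e : ℕ)
      (t : Fin n → (L →+* QBar) → ℕ) (ψ : Fin n → (Ideal (𝓞 L) →*₀ ZBar)),
      IsGalois K L ∧ Group.IsSolvable (L ≃ₐ[K] L) ∧
      (∀ (v : HeightOneSpectrum (𝓞 K)) (w : HeightOneSpectrum (𝓞 L)),
        (N : 𝓞 K) ∉ v.asIdeal → Above w v →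
        ¬ v.asIdeal.map (algebraMap (𝓞 K) (𝓞 L)) ≤ w.asIdeal ^ 2) ∧
      (∀ i (𝔞 : Ideal (𝓞 L)), 𝔞 ≠ ⊥ → (ψ i 𝔞 ≠ 0 ↔ IsCoprime 𝔞 (Ideal.span {(N : 𝓞 L)}))) ∧
      (∀ i (x : 𝓞 L), InRay (N ^ e) x → ψ i (Ideal.span {x}) = typB (t i) x) ∧
      ∀ (v : HeightOneSpectrum (𝓞 K)) (w : HeightOneSpectrum (𝓞 L)) (f : ℕ) (α : Fin n → ZBar),
        (N : 𝓞 K) ∉ v.asIdeal → Above w v →
        Ideal.absNorm w.asIdeal = Ideal.absNorm v.asIdeal ^ f →
        (P v).map (jz j) = ∏ i, (X - Polynomial.C (α i)) →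
        ∏ i, (X - Polynomial.C (α i ^ f)) = ∏ i, (X - Polynomial.C (ψ i w.asIdeal)) := by
  obtain ⟨U, L, _, _, _, ι, e, t, ψ, h⟩ := sol_pot hSS hMal hCho hHM hFld hEmb hE2 hRes hFin
    j N n hN P hP
  exact ⟨L, inferInstance, inferInstance, inferInstance, e, t, ψ, h.fld.galois, h.fld.sol h.solv,
    fun v w hv hw => h.fld.unr N h.unr v w hw hv, h.cop, h.typ, h.eq⟩

end

end Pool.Agent.H500.TH
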