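import Pool.Agent.H500.TH.Loc

set_option autoImplicit false
set_option linter.unusedSectionVars false

/-!
# The types
-/

namespace Pool.Agent.H500.TH

open NumberField IsDedekindDomain Filter Topology Polynomial
open Pool.Agent.W401.Cheb (dens)
open Pool.Agent.H500.HC
open Pool.Agent.H500.MW (PosUD dens_exists)

section TC

variable {K E F : Type} [Field K] [NumberField K] [Field E] [NumberField E] [Field F]
  [NumberField F]

/-- the relations for a finite set of primes -/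
theorem types_fin (hKD : S_TKD) (hcard : Fintype.card (K →+* F) = Module.finrank ℚ K)
    (i0 : E →+* F) (j : F →+* QBar) {N n : ℕ}
    {α : HeightOneSpectrum (𝓞 K) → Fin n → ZBar}
    (hα0 : ∀ v : HeightOneSpectrum (𝓞 K), (N : 𝓞 K) ∉ v.asIdeal → ∀ i, α v i ≠ 0)
    {Λ : HeightOneSpectrum (𝓞 E) → Prop} (hΛ : PosUD Λ)
    (hloc : ∀ lam, Λ lam → Nonempty (TLoc i0 j N n α lam)) {h : ℕ}
    {W : Type} [Fintype W] (v : W → HeightOneSpectrum (𝓞 K)) (x : W → 𝓞 K)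
    (hv : ∀ w, (N : 𝓞 K) ∉ (v w).asIdeal) (hx : ∀ w, InRay N (x w))
    (hvx : ∀ w, (v w).asIdeal ^ h = Ideal.span {x w}) (Vs : Finset W)
    (hVs : Fintype.card (K →+* F) < Vs.card)
    (hind : ∀ n : W → (K →+* F) → ℤ, (∀ w, w ∉ Vs → n w = 0) →
      ∏ w, ∏ σ, ((em σ (x w) : 𝓞 F) : F) ^ n w σ = 1 → n = 0) :
    ∃ Q : W → Equiv.Perm (Fin n), (∀ w w', v w = v w' → Q w = Q w') ∧
      ∀ i, ∃ (m : ℕ) (c : (K →+* F) → ℤ), 0 < m ∧
        ∀ w, (algebraMap ZBar QBar (α (v w) (Q w i))) ^ (h * m) =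
          ∏ σ, j ((em σ (x w) : 𝓞 F) : F) ^ c σ := by
  classical
  set Rel : (W → Equiv.Perm (Fin n)) × Fin n → Prop := fun z =>
    ∃ (m : ℕ) (c : (K →+* F) → ℤ), 0 < m ∧
        ∀ w, (algebraMap ZBar QBar (α (v w) (z.1 w z.2))) ^ (h * m) =
          ∏ σ, j ((em σ (x w) : 𝓞 F) : F) ^ c σ with hRel
  set Z : (W → Equiv.Perm (Fin n)) × Fin n → HeightOneSpectrum (𝓞 E) → Prop := fun z lam =>
    ¬ Rel z ∧ ∃ (k : Type) (_ : Field k) (ψ : ZBar →+* k),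
    RingHom.ker (ψ.comp (jz (j.comp i0))) = lam.asIdeal ∧
    ∃ a : (K →+* F) → ℕ, ∀ w, ψ (α (v w) (z.1 w z.2) ^ h) =
      ∏ s, ψ (jz j (em s (x w))) ^ a s with hZ
  have hZ0 : ∀ z, Tendsto (dens (Z z)) atTop (𝓝 0) := by
    intro z
    by_cases hz : Rel z
    · refine Pool.Agent.H500.Kum.dens_fin _ ?_
      have : {lam : HeightOneSpectrum (𝓞 E) | Z z lam} = ∅ := by
        ext lam
        simp only [hZ, Set.mem_ofPred_eq, Set.mem_empty_iff_false, iff_false]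
        rintro ⟨h, _⟩
        exact h hz
      rw [this]
      exact Set.finite_empty
    · have h1 := hKD E F W (K →+* F) i0 j Vs (fun w => α (v w) (z.1 w z.2) ^ h)
        (fun w σ => em σ (x w)) hVs (fun w => pow_ne_zero _ (hα0 _ (hv w) _))
        (fun w σ => em_ne_zero (hx w).1 σ) (fun g _ => by
          obtain ⟨p, hp⟩ := perm_ex (K := K) hcard j g
          exact ⟨p, fun w σ => hp σ _⟩) hind (by
          rintro ⟨m, c, hm, hc⟩
          apply hz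
          refine ⟨m, c, hm, fun w => ?_⟩
          rw [← hc w, pow_mul]
          congr 1)
      refine squeeze_zero (fun N => Pool.Agent.W528.Ord.dens_nonneg _ N) (fun N => ?_) h1
      exact Pool.Agent.W528.Ord.dens_mono (fun v hv => hv.2) N
  have hfin1 : ∀ w : W, Tendsto (dens fun lam : HeightOneSpectrum (𝓞 E) =>
      ((Ideal.absNorm (Ideal.span {x w}) : ℕ) : 𝓞 E) ∈ lam.asIdeal) atTop (𝓝 0) := fun w =>
    Pool.Agent.H500.Kum.dens_fin _ (Pool.Agent.H500.Kum.fin_mem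
      (Nat.cast_ne_zero.2 (norm_span_ne (hx w).1)))
  have hfin2 : ∀ w : W, Tendsto (dens fun lam : HeightOneSpectrum (𝓞 E) =>
      ((Ideal.absNorm (v w).asIdeal : ℕ) : 𝓞 E) ∈ lam.asIdeal) atTop (𝓝 0) := fun w =>
    Pool.Agent.H500.Kum.dens_fin _ (Pool.Agent.H500.Kum.fin_mem
      (Nat.cast_ne_zero.2 (norm_ne_zero _)))
  obtain ⟨lam, ⟨⟨hlam, hlZ⟩, hl1⟩, hl2⟩ := (((hΛ.diff (dens_exists Z hZ0)).diff
    (dens_exists _ hfin1)).diff (dens_exists _ hfin2)).nonempty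
  obtain ⟨L⟩ := hloc lam hlam
  push Not at hl1 hl2
  have hv' : ∀ w, (L.l : 𝓞 K) ∉ (v w).asIdeal := fun w => L.not_mem (hl2 w)
  have hex : ∀ u : HeightOneSpectrum (𝓞 K), ∃ π : Equiv.Perm (Fin n), (N : 𝓞 K) ∉ u.asIdeal →
      (L.l : 𝓞 K) ∉ u.asIdeal → ∀ i, L.ψ (α u (π i)) = L.χ i u.asIdeal := by
    intro u
    by_cases hu : (N : 𝓞 K) ∉ u.asIdeal ∧ (L.l : 𝓞 K) ∉ u.asIdeal
    · obtain ⟨π, hπ⟩ := L.hroots u hu.1 hu.2
      exact ⟨π, fun _ _ => hπ⟩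
    · exact ⟨1, fun h1 h2 => absurd ⟨h1, h2⟩ hu⟩
  choose Q0 hQ0 using hex
  refine ⟨fun w => Q0 (v w), fun w w' hww => congrArg Q0 hww, fun i => ?_⟩
  by_contra hcon
  apply hlZ
  refine ⟨(fun w => Q0 (v w), i), hcon, L.k, inferInstance, L.ψ, L.hker, L.a i, fun w => ?_⟩
  rw [map_pow, hQ0 (v w) (hv w) (hv' w) i, ← map_pow, hvx w,
    L.hexp i (x w) (hx w) (cop_of_norm L.hl L.hmem (hl1 w))]

/-- The relations for finitely many primes, together with a reference prime. -/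
theorem types_ref (hKD : S_TKD) (hSplit : S_Split)
    (hcard : Fintype.card (K →+* F) = Module.finrank ℚ K) (i0 : E →+* F) (j : F →+* QBar) {N n : ℕ} (hN : 0 < N)
    {α : HeightOneSpectrum (𝓞 K) → Fin n → ZBar}
    (hα0 : ∀ v : HeightOneSpectrum (𝓞 K), (N : 𝓞 K) ∉ v.asIdeal → ∀ i, α v i ≠ 0)
    {Λ : HeightOneSpectrum (𝓞 E) → Prop} (hΛ : PosUD Λ)
    (hloc : ∀ lam, Λ lam → Nonempty (TLoc i0 j N n α lam)) {h : ℕ} (hh : 0 < h)
    (hcl : ∀ v : HeightOneSpectrum (𝓞 K), (N : 𝓞 K) ∉ v.asIdeal →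
      ∃ x : 𝓞 K, InRay N x ∧ v.asIdeal ^ h = Ideal.span {x}) :
    ∃ (v0 : HeightOneSpectrum (𝓞 K)) (x0 : 𝓞 K), (N : 𝓞 K) ∉ v0.asIdeal ∧ InRay N x0 ∧
      v0.asIdeal ^ h = Ideal.span {x0} ∧
      (∀ c : (K →+* F) → ℤ, ∏ σ, j ((em σ x0 : 𝓞 F) : F) ^ c σ = 1 → c = 0) ∧
      ∀ (U : Type) [Fintype U] (v : U → HeightOneSpectrum (𝓞 K)) (x : U → 𝓞 K),
        (∀ u, (N : 𝓞 K) ∉ (v u).asIdeal) → (∀ u, InRay N (x u)) →
        (∀ u, (v u).asIdeal ^ h = Ideal.span {x u}) →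
        ∃ (Q0 : Equiv.Perm (Fin n)) (Q : U → Equiv.Perm (Fin n)),
          (∀ u, v u = v0 → Q u = Q0) ∧
          ∀ i, ∃ (m : ℕ) (c : (K →+* F) → ℤ), 0 < m ∧
            (algebraMap ZBar QBar (α v0 (Q0 i))) ^ (h * m) =
              ∏ σ, j ((em σ x0 : 𝓞 F) : F) ^ c σ ∧
            ∀ u, (algebraMap ZBar QBar (α (v u) (Q u i))) ^ (h * m) =
              ∏ σ, j ((em σ (x u) : 𝓞 F) : F) ^ c σ := by
  classical
  obtain ⟨vs, hvs, hvsN, hvsI⟩ := hSplit K F hcard N (Fintype.card (K →+* F) + 1) hN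
  choose xs hxs1 hxs2 using fun i => hcl (vs i) (hvsN i)
  have hI := hvsI xs (fun _ => h) (fun i => ⟨hh, hxs2 i⟩)
  refine ⟨vs 0, xs 0, hvsN 0, hxs1 0, hxs2 0, ?_, ?_⟩
  · intro c hc
    have h1 := hI (fun i => if i = 0 then c else 0) (by
      rw [Finset.prod_eq_single (0 : Fin (Fintype.card (K →+* F) + 1))]
      · simp only [if_true]
        apply j.injective
        rw [map_prod, map_one, ← hc]
        refine Finset.prod_congr rfl fun σ _ => ?_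
        rw [map_zpow₀]
      · intro i _ hi
        simp only [if_neg hi]
        exact Finset.prod_eq_one fun σ _ => zpow_zero _
      · intro hn
        exact absurd (Finset.mem_univ _) hn)
    have h2 := congrFun h1 0
    simpa using h2
  · intro U _ v x hv hx hvx
    set V' : Fin (Fintype.card (K →+* F) + 1) ⊕ U → HeightOneSpectrum (𝓞 K) :=
      Sum.elim vs v with hV'
    set X' : Fin (Fintype.card (K →+* F) + 1) ⊕ U → 𝓞 K := Sum.elim xs x with hX'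
    obtain ⟨Q, hQ, hrel⟩ := types_fin hKD hcard i0 j hα0 hΛ hloc (h := h) V' X'
      (by rintro (i | u); exacts [hvsN i, hv u])
      (by rintro (i | u); exacts [hxs1 i, hx u])
      (by rintro (i | u); exacts [hxs2 i, hvx u])
      (Finset.univ.map Function.Embedding.inl)
      (by rw [Finset.card_map, Finset.card_univ, Fintype.card_fin]; exact Nat.lt_succ_self _)
      (by
        intro c hc0 hc
        have h1 : ∀ u, c (Sum.inr u) = 0 := fun u => hc0 _ (by simp)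
        rw [Fintype.prod_sum_type] at hc
        have h2 : ∏ u : U, ∏ σ, ((em σ (X' (Sum.inr u)) : 𝓞 F) : F) ^ c (Sum.inr u) σ = 1 := by
          refine Finset.prod_eq_one fun u _ => Finset.prod_eq_one fun σ _ => ?_
          rw [h1 u, Pi.zero_apply, zpow_zero]
        rw [h2, mul_one] at hc
        have h3 := hI (fun i => c (Sum.inl i)) hc
        funext w
        rcases w with i | u
        · exact congrFun h3 i
        · exact h1 u)
    refine ⟨Q (Sum.inl 0), fun u => Q (Sum.inr u), fun u hu => ?_, fun i => ?_⟩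
    · exact hQ (Sum.inr u) (Sum.inl 0) hu
    · obtain ⟨m, c, hm, hc⟩ := hrel i
      exact ⟨m, c, hm, hc (Sum.inl 0), fun u => hc (Sum.inr u)⟩

end TC

section typ

variable {K E F : Type} [Field K] [NumberField K] [Field E] [NumberField E] [Field F]
  [NumberField F]

theorem jem_mul (j : F →+* QBar) (σ : K →+* F) (x y : 𝓞 K) :
    j ((em σ (x * y) : 𝓞 F) : F) = j ((em σ x : 𝓞 F) : F) * j ((em σ y : 𝓞 F) : F) :=
  map_mul ((j.comp (algebraMap (𝓞 F) F)).comp (RingOfIntegers.mapRingHom σ)) x y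

/-- **The types.** -/
theorem types (hKD : S_TKD) (hSplit : S_Split)
    (hcard : Fintype.card (K →+* F) = Module.finrank ℚ K) (i0 : E →+* F) (j : F →+* QBar) {N n : ℕ} (hN : 0 < N)
    {α : HeightOneSpectrum (𝓞 K) → Fin n → ZBar}
    (hα0 : ∀ v : HeightOneSpectrum (𝓞 K), (N : 𝓞 K) ∉ v.asIdeal → ∀ i, α v i ≠ 0)
    {Λ : HeightOneSpectrum (𝓞 E) → Prop} (hΛ : PosUD Λ)
    (hloc : ∀ lam, Λ lam → Nonempty (TLoc i0 j N n α lam)) {h : ℕ} (hh : 0 < h)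
    (hcl : ∀ v : HeightOneSpectrum (𝓞 K), (N : 𝓞 K) ∉ v.asIdeal →
      ∃ x : 𝓞 K, InRay N x ∧ v.asIdeal ^ h = Ideal.span {x}) :
    ∃ t : Fin n → (K →+* F) → ℚ, ∀ v : HeightOneSpectrum (𝓞 K), (N : 𝓞 K) ∉ v.asIdeal →
      ∃ π : Equiv.Perm (Fin n), ∀ i (x : 𝓞 K), InRay N x → v.asIdeal ^ h = Ideal.span {x} →
        ∃ (m : ℕ) (c : (K →+* F) → ℤ), 0 < m ∧ (∀ σ, (c σ : ℚ) = m * t i σ) ∧
          (algebraMap ZBar QBar (α v (π i))) ^ (h * m) =
            ∏ σ, j ((em σ x : 𝓞 F) : F) ^ c σ := by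
  classical
  obtain ⟨v0, x0, hv0, hx0, hvx0, hind, hU⟩ :=
    types_ref hKD hSplit hcard i0 j hN hα0 hΛ hloc hh hcl
  -- the reference types
  have hex : ∀ i, ∃ (m : ℕ) (c : (K →+* F) → ℤ), 0 < m ∧
      (algebraMap ZBar QBar (α v0 i)) ^ (h * m) = ∏ σ, j ((em σ x0 : 𝓞 F) : F) ^ c σ := by
    obtain ⟨Q0, Q, -, h1⟩ := hU (Fin 0)
      (fun i => (i.elim0 : HeightOneSpectrum (𝓞 K))) (fun i => (i.elim0 : 𝓞 K))
      (fun i => i.elim0) (fun i => i.elim0) (fun i => i.elim0)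
    intro i
    obtain ⟨m, c, hm, h2, -⟩ := h1 (Q0.symm i)
    rw [Equiv.apply_symm_apply] at h2
    exact ⟨m, c, hm, h2⟩
  choose m0 c0 hm0 hc0 using hex
  have huniq : ∀ i (m : ℕ) (c : (K →+* F) → ℤ), 0 < m →
      (algebraMap ZBar QBar (α v0 i)) ^ (h * m) = ∏ σ, j ((em σ x0 : 𝓞 F) : F) ^ c σ →
      ∀ σ, (c σ : ℚ) = m * ((c0 i σ : ℚ) / m0 i) := by
    intro i m c hm hc σ
    have e1 : (algebraMap ZBar QBar (α v0 i)) ^ (h * m * m0 i) =
        ∏ σ, j ((em σ x0 : 𝓞 F) : F) ^ ((m0 i : ℤ) * c σ) := by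
      rw [pow_mul, hc, ← Finset.prod_pow]
      refine Finset.prod_congr rfl fun σ _ => ?_
      rw [mul_comm (m0 i : ℤ), zpow_mul, zpow_natCast]
    have e2 : (algebraMap ZBar QBar (α v0 i)) ^ (h * m * m0 i) =
        ∏ σ, j ((em σ x0 : 𝓞 F) : F) ^ ((m : ℤ) * c0 i σ) := by
      rw [mul_assoc, mul_comm m, ← mul_assoc, pow_mul, hc0, ← Finset.prod_pow]
      refine Finset.prod_congr rfl fun σ _ => ?_
      rw [mul_comm (m : ℤ), zpow_mul, zpow_natCast]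
    have e3 := hind (fun σ => (m0 i : ℤ) * c σ - (m : ℤ) * c0 i σ) (by
      have hne : ∀ σ : K →+* F, j ((em σ x0 : 𝓞 F) : F) ≠ 0 := fun σ h0 => by
        have h1 := j.injective (h0.trans (map_zero j).symm)
        exact em_ne_zero hx0.1 σ (RingOfIntegers.coe_injective (h1.trans (map_zero _).symm))
      have h3 : ∀ σ : K →+* F, j ((em σ x0 : 𝓞 F) : F) ^ ((m0 i : ℤ) * c σ - (m : ℤ) * c0 i σ) =
          j ((em σ x0 : 𝓞 F) : F) ^ ((m0 i : ℤ) * c σ) /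
            j ((em σ x0 : 𝓞 F) : F) ^ ((m : ℤ) * c0 i σ) := fun σ => zpow_sub₀ (hne σ) _ _
      rw [Finset.prod_congr rfl fun σ _ => h3 σ, Finset.prod_div_distrib, ← e1, ← e2, div_self]
      rw [e2]
      exact Finset.prod_ne_zero_iff.2 fun σ _ => zpow_ne_zero _ (hne σ))
    have e4 := congrFun e3 σ
    simp only [Pi.zero_apply] at e4
    have e5 : (m0 i : ℚ) * c σ = m * c0 i σ := by
      have : (m0 i : ℤ) * c σ = (m : ℤ) * c0 i σ := by linarith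
      exact_mod_cast this
    have hm0' : (m0 i : ℚ) ≠ 0 := by exact_mod_cast (hm0 i).ne'
    field_simp
    linarith
  -- units
  have hunit : ∀ u : 𝓞 K, IsUnit u → InRay N u → ∀ i, ∃ (m : ℕ) (c : (K →+* F) → ℤ), 0 < m ∧
      (∀ σ, (c σ : ℚ) = m * ((c0 i σ : ℚ) / m0 i)) ∧
      ∏ σ, j ((em σ u : 𝓞 F) : F) ^ c σ = 1 := by
    intro u hu huN i
    obtain ⟨Q0, Q, hQ, h1⟩ := hU (Fin 1) (fun _ => v0) (fun _ => u * x0) (fun _ => hv0)
      (fun _ => huN.mul hx0) (fun _ => by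
        rw [hvx0]
        exact (Ideal.span_singleton_mul_left_unit hu x0).symm)
    obtain ⟨m, c, hm, h2, h3⟩ := h1 (Q0.symm i)
    have h4 := h3 0
    rw [hQ 0 rfl, Equiv.apply_symm_apply] at h4
    rw [Equiv.apply_symm_apply] at h2
    refine ⟨m, c, hm, huniq i m c hm h2, ?_⟩
    rw [h2] at h4
    have hne : ∀ σ : K →+* F, j ((em σ x0 : 𝓞 F) : F) ≠ 0 := fun σ h0 => by
      have h1 := j.injective (h0.trans (map_zero j).symm)
      exact em_ne_zero hx0.1 σ (RingOfIntegers.coe_injective (h1.trans (map_zero _).symm))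
    have h5 : ∏ σ : K →+* F, j ((em σ (u * x0) : 𝓞 F) : F) ^ c σ =
        (∏ σ, j ((em σ u : 𝓞 F) : F) ^ c σ) * ∏ σ, j ((em σ x0 : 𝓞 F) : F) ^ c σ := by
      rw [← Finset.prod_mul_distrib]
      refine Finset.prod_congr rfl fun σ _ => ?_
      rw [jem_mul, mul_zpow]
    rw [h5] at h4
    exact (mul_eq_right₀ (Finset.prod_ne_zero_iff.2 fun σ _ => zpow_ne_zero _ (hne σ))).1 h4.symm
  refine ⟨fun i σ => (c0 i σ : ℚ) / m0 i, fun v hv => ?_⟩
  obtain ⟨x1, hx1, hvx1⟩ := hcl v hv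
  obtain ⟨Q0, Q, -, h1⟩ := hU (Fin 1) (fun _ => v) (fun _ => x1) (fun _ => hv)
    (fun _ => hx1) (fun _ => hvx1)
  refine ⟨Q0.symm.trans (Q 0), fun i x hx hvx => ?_⟩
  obtain ⟨m1, c1, hm1, h2, h3⟩ := h1 (Q0.symm i)
  rw [Equiv.apply_symm_apply] at h2
  have h4 := huniq i m1 c1 hm1 h2
  have h5 := h3 0
  -- the unit
  have hass : Associated x1 x := by
    rw [← Ideal.span_singleton_eq_span_singleton, ← hvx1, hvx]
  obtain ⟨u, hu⟩ := hass
  have hux : (u : 𝓞 K) * x1 = x := by rw [mul_comm]; exact hu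
  have huN : InRay N (u : 𝓞 K) := InRay.of_mul (by rw [hux]; exact hx) hx1
  obtain ⟨m2, c2, hm2, h6, h7⟩ := hunit u u.isUnit huN i
  have hc : ∀ σ, (m2 : ℤ) * c1 σ = (m1 : ℤ) * c2 σ := by
    intro σ
    have : (m2 : ℚ) * c1 σ = m1 * c2 σ := by
      rw [h4 σ, h6 σ]
      ring
    exact_mod_cast this
  refine ⟨m1 * m2, fun σ => (m2 : ℤ) * c1 σ, Nat.mul_pos hm1 hm2, fun σ => ?_, ?_⟩
  · push_cast
    rw [h4 σ]
    ring
  · rw [← mul_assoc, pow_mul]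
    show (algebraMap ZBar QBar (α v (Q 0 (Q0.symm i))) ^ (h * m1)) ^ m2 = _
    rw [h5, ← hux]
    have h8 : ∏ σ : K →+* F, j ((em σ (↑u * x1) : 𝓞 F) : F) ^ ((m2 : ℤ) * c1 σ) =
        (∏ σ, j ((em σ (↑u : 𝓞 K) : 𝓞 F) : F) ^ c2 σ) ^ m1 *
          (∏ σ, j ((em σ x1 : 𝓞 F) : F) ^ c1 σ) ^ m2 := by
      rw [← Finset.prod_pow, ← Finset.prod_pow, ← Finset.prod_mul_distrib]
      refine Finset.prod_congr rfl fun σ _ => ?_
      have e1 : j ((em σ (↑u : 𝓞 K) : 𝓞 F) : F) ^ ((m2 : ℤ) * c1 σ) =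
          (j ((em σ (↑u : 𝓞 K) : 𝓞 F) : F) ^ c2 σ) ^ m1 := by
        rw [hc σ, mul_comm (m1 : ℤ), zpow_mul, zpow_natCast]
      have e2 : j ((em σ x1 : 𝓞 F) : F) ^ ((m2 : ℤ) * c1 σ) =
          (j ((em σ x1 : 𝓞 F) : F) ^ c1 σ) ^ m2 := by
        rw [mul_comm (m2 : ℤ), zpow_mul, zpow_natCast]
      rw [jem_mul, mul_zpow, e1, e2]
    rw [h8, h7, one_pow, one_mul]

end typ

end Pool.Agent.H500.TH
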